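import Pool.Agent.L7h46.SB.Cop

/-!
# Project SB: bands near a closed geodesic (`S_COL`)
-/

set_option autoImplicit false

open Set Filter Topology MeasureTheory
open scoped Real ContDiff
open Pool.Agent.Y262.QE Pool.Agent.Y264.QR

noncomputable section

namespace Pool.Agent.L7h46.SB

open Pool.Agent.L7h70.SB

/-- the logarithm of the quotient of the conformal factors -/
def uc (a : ℝ) (w : ℂ → ℝ) (z : ℂ) : ℝ :=
  2 * Real.log (2 * a) + Real.log (‖z‖ ^ 2) - 2 * Real.log (1 + ‖z‖ ^ 2) - 2 * w z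

lemma nsq_contDiff : ContDiff ℝ ∞ (fun z : ℂ => ‖z‖ ^ 2) := contDiff_id.norm_sq ℝ

lemma uc_contDiffOn {η a : ℝ} {w : ℂ → ℝ} (hw : ContDiffOn ℝ ∞ w (Ann η)) :
    ContDiffOn ℝ ∞ (uc a w) (Ann η) := by
  have h1 : ContDiffOn ℝ ∞ (fun z : ℂ => Real.log (‖z‖ ^ 2)) (Ann η) := by
    refine nsq_contDiff.contDiffOn.log fun z hz => ?_
    have : 0 < ‖z‖ := (Real.exp_pos _).trans hz.1
    positivity
  have h2 : ContDiffOn ℝ ∞ (fun z : ℂ => Real.log (1 + ‖z‖ ^ 2)) (Ann η) := by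
    refine (contDiff_const.add nsq_contDiff).contDiffOn.log fun z hz => ?_
    positivity
  unfold uc
  exact ((contDiffOn_const.add h1).sub (contDiffOn_const.mul h2)).sub (contDiffOn_const.mul hw)

lemma uc_circ {η a : ℝ} (hη : 0 < η) (ha : 0 < a) {w : ℂ → ℝ} (hw : ContDiffOn ℝ ∞ w (Ann η))
    (hc : ∀ z : ℂ, ‖z‖ = 1 → w z = Real.log a ∧ fderiv ℝ w z = 0) :
    ∀ z : ℂ, ‖z‖ = 1 → uc a w z = 0 ∧ fderiv ℝ (uc a w) z = 0 := by
  intro z hz
  constructor
  · unfold uc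
    rw [hz, (hc z hz).1, Real.log_mul two_ne_zero ha.ne']
    norm_num
    ring
  · have hzA : z ∈ Ann η := by
      constructor
      · rw [hz, ← Real.exp_zero]; exact Real.exp_lt_exp.2 (by linarith)
      · rw [hz, ← Real.exp_zero]; exact Real.exp_lt_exp.2 hη
    have hwd : HasFDerivAt w (0 : ℂ →L[ℝ] ℝ) z := by
      have := ((hw.contDiffAt ((isOpen_Ann η).mem_nhds hzA)).differentiableAt (by simp)).hasFDerivAt
      rwa [(hc z hz).2] at this
    set N : ℂ → ℝ := fun z => ‖z‖ ^ 2 with hN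
    have hNd : HasFDerivAt N (fderiv ℝ N z) z := (nsq_contDiff.differentiable (by simp) z).hasFDerivAt
    have hNz : N z = 1 := by simp [hN, hz]
    have h1 : HasFDerivAt (fun y => Real.log (N y)) ((N z)⁻¹ • fderiv ℝ N z) z :=
      hNd.log (by rw [hNz]; exact one_ne_zero)
    have h2 : HasFDerivAt (fun y => Real.log (1 + N y)) ((1 + N z)⁻¹ • fderiv ℝ N z) z :=
      (hNd.const_add 1).log (by rw [hNz]; norm_num)
    have h3 : HasFDerivAt (uc a w) ((((N z)⁻¹ • fderiv ℝ N z) - (2 : ℝ) • ((1 + N z)⁻¹ • fderiv ℝ N z)) -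
        (2 : ℝ) • (0 : ℂ →L[ℝ] ℝ)) z :=
      ((h1.const_add (2 * Real.log (2 * a))).sub (h2.const_mul 2)).sub (hwd.const_mul 2)
    rw [h3.fderiv, hNz, smul_smul, smul_zero, sub_zero]
    norm_num

lemma uc_exp {a : ℝ} (ha : 0 < a) (w : ℂ → ℝ) {z : ℂ} (hz : z ≠ 0) :
    Real.exp (uc a w z) = (2 * a) ^ 2 * ‖z‖ ^ 2 / (1 + ‖z‖ ^ 2) ^ 2 / Real.exp (w z) ^ 2 := by
  have hz' : 0 < ‖z‖ := norm_pos_iff.2 hz
  have e1 : Real.exp (2 * Real.log (2 * a)) = (2 * a) ^ 2 := by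
    have := Real.exp_nat_mul (Real.log (2 * a)) 2
    rw [Real.exp_log (by positivity)] at this
    exact_mod_cast this
  have e2 : Real.exp (2 * Real.log (1 + ‖z‖ ^ 2)) = (1 + ‖z‖ ^ 2) ^ 2 := by
    have := Real.exp_nat_mul (Real.log (1 + ‖z‖ ^ 2)) 2
    rw [Real.exp_log (by positivity)] at this
    exact_mod_cast this
  have e3 : Real.exp (2 * w z) = Real.exp (w z) ^ 2 := by
    have := Real.exp_nat_mul (w z) 2
    exact_mod_cast this
  unfold uc
  rw [Real.exp_sub, Real.exp_sub, Real.exp_add, e1, e2, e3, Real.exp_log (by positivity)]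

theorem s_COL : S_COL := by
  intro M _ _ _ _ μ D hD i a η w hC α ε hα hα1 hε
  obtain ⟨ha, hη, hann, hsm, hcirc⟩ := hC
  change ContDiffOn ℝ ∞ w (Ann η) at hsm
  obtain ⟨g, κ, hκ, hκη, hg, hgs, hgu, hg0, hg1, hg2⟩ := s_COP η (uc a w) hη (uc_contDiffOn hsm)
    (uc_circ hη ha hsm hcirc) α ε hα hα1 hε
  have hAT : Ann η ⊆ D.T i := fun z hz => (hann z hz.1.le hz.2.le).1
  set K : Set ℂ := tsupport g with hK
  have hKT : K ⊆ D.T i := hgs.trans hAT
  have hKc : IsCompact K := by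
    refine Metric.isCompact_of_isClosed_isBounded (isClosed_tsupport g) ?_
    refine (Metric.isBounded_closedBall (x := (0 : ℂ)) (r := Real.exp η)).subset fun z hz => ?_
    simpa using (hgs hz).2.le
  have hgK : ∀ z, z ∉ K → g z = 0 := fun z hz => image_eq_zero_of_notMem_tsupport hz
  have hgc : Continuous g := hg.continuous
  -- the function on the surface
  classical
  set G : M → ℝ := fun x => if x ∈ D.U i then g (D.φ i x) else 0 with hG
  have hKc' : IsCompact (D.ψ i '' K) := hKc.image_of_continuousOn ((hD.contψ i).mono hKT)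
  have hUφ : ∀ x ∈ D.U i, D.ψ i (D.φ i x) = x := hD.left i
  have hGK : ∀ x, x ∉ D.ψ i '' K → G x = 0 := by
    intro x hx
    simp only [hG]
    split_ifs with hU
    · exact hgK _ fun h => hx ⟨D.φ i x, h, hUφ x hU⟩
    · rfl
  have hGc : Continuous G := by
    rw [continuous_iff_continuousAt]
    intro x
    by_cases hx : x ∈ D.U i
    · have hn : D.U i ∈ 𝓝 x := (hD.openU i).mem_nhds hx
      have h1 : ContinuousAt (fun x => g (D.φ i x)) x :=
        hgc.continuousAt.comp ((hD.contφ i).continuousAt hn)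
      refine h1.congr ?_
      filter_upwards [hn] with y hy
      simp [hG, hy]
    · have hx' : x ∈ (D.ψ i '' K)ᶜ := by
        rintro ⟨z, hz, rfl⟩
        apply hx
        obtain ⟨y, hy, rfl⟩ := hKT hz
        rw [hUφ y hy]; exact hy
      have : G =ᶠ[𝓝 x] fun _ => 0 := by
        filter_upwards [hKc'.isClosed.isOpen_compl.mem_nhds hx'] with y hy
        exact hGK y hy
      exact continuousAt_const.congr this.symm
  have hψT : ∀ z ∈ D.T i, D.ψ i z ∈ D.U i ∧ D.φ i (D.ψ i z) = z := by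
    rintro z ⟨x, hx, rfl⟩
    rw [hUφ x hx]
    exact ⟨hx, rfl⟩
  have hGT : ∀ z ∈ D.T i, G (D.ψ i z) = g z := by
    intro z hz
    obtain ⟨h1, h2⟩ := hψT z hz
    simp only [hG, if_pos h1, h2]
  refine ⟨⟨G, hGc⟩, g, ?_, ?_, ?_, hg, hgs, hg0, hg1, hg2⟩
  · refine ⟨i, 0, 1, κ, a ^ 2, one_pos, hκ, by positivity, ?_⟩
    intro z h1 h2
    rw [one_mul, sub_zero] at h1 h2
    have hz0 : z ≠ 0 := by
      rintro rfl
      rw [norm_zero] at h1
      exact absurd h1 (not_le.2 (Real.exp_pos _))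
    have h1' : Real.exp (-η) ≤ ‖z‖ := (Real.exp_le_exp.2 (by linarith)).trans h1
    have h2' : ‖z‖ ≤ Real.exp η := h2.trans (Real.exp_le_exp.2 hκη.le)
    obtain ⟨hT, hA⟩ := hann z h1' h2'
    refine ⟨hT, fun v => ?_⟩
    show Real.exp (G (D.ψ i z)) * ‖D.A i z v‖ ^ 2 = _
    rw [hGT z hT, hgu z h1 h2, hA v, uc_exp ha w hz0, sub_zero]
    have hz' : 0 < ‖z‖ := norm_pos_iff.2 hz0
    have hw' : 0 < Real.exp (w z) := Real.exp_pos _
    have hp : 1 + ‖z‖ ^ 2 ≠ 0 := by positivity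
    have hw0 : Real.exp (w z) ≠ 0 := hw'.ne'
    have e5 : (2 * a) ^ 2 * ‖z‖ ^ 2 / (1 + ‖z‖ ^ 2) ^ 2 / Real.exp (w z) ^ 2 *
        (Real.exp (w z) / ‖z‖ * ‖v‖) ^ 2 = (2 * a) ^ 2 / (1 + ‖z‖ ^ 2) ^ 2 * ‖v‖ ^ 2 *
        ((‖z‖ * ‖z‖⁻¹) ^ 2) * (Real.exp (w z) * (Real.exp (w z))⁻¹) ^ 2 := by ring
    rw [e5, mul_inv_cancel₀ hz'.ne', mul_inv_cancel₀ hw0, div_pow]
    ring
  · intro x hx
    show G x = 0
    simp [hG, hx]
  · intro z hz
    exact hGT z hz

end Pool.Agent.L7h46.SB
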