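import Pool.Agent.L7h70.SB.Stm2

/-!
# Project SB: cutting off in `C^(1,α)` (`S_COP`)
-/

set_option autoImplicit false

open Set Filter Topology MeasureTheory
open scoped Real ContDiff

noncomputable section

namespace Pool.Agent.L7h46.SB

open Pool.Agent.L7h70.SB

/-- the open annulus -/
def Ann (η : ℝ) : Set ℂ := {z | Real.exp (-η) < ‖z‖ ∧ ‖z‖ < Real.exp η}

/-- the compact annulus -/
def Kom (η : ℝ) : Set ℂ := {z | Real.exp (-(η / 2)) ≤ ‖z‖ ∧ ‖z‖ ≤ Real.exp (η / 2)}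

lemma isOpen_Ann (η : ℝ) : IsOpen (Ann η) :=
  (isOpen_lt continuous_const continuous_norm).inter (isOpen_lt continuous_norm continuous_const)

lemma isCompact_Kom (η : ℝ) : IsCompact (Kom η) := by
  refine Metric.isCompact_of_isClosed_isBounded
    ((isClosed_le continuous_const continuous_norm).inter (isClosed_le continuous_norm continuous_const)) ?_
  refine (Metric.isBounded_closedBall (x := (0 : ℂ)) (r := Real.exp (η / 2))).subset ?_
  intro z hz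
  simpa using hz.2

lemma Kom_sub {η : ℝ} (hη : 0 < η) : Kom η ⊆ Ann η := fun z hz =>
  ⟨(Real.exp_lt_exp.2 (by linarith)).trans_le hz.1, hz.2.trans_lt (Real.exp_lt_exp.2 (by linarith))⟩

lemma exists_bound {F : Type} [NormedAddCommGroup F] {K : Set ℂ} (hK : IsCompact K) {f : ℂ → F}
    (hf : ContinuousOn f K) : ∃ B : ℝ, ∀ y ∈ K, ‖f y‖ ≤ B :=
  hK.exists_bound_of_continuousOn hf

lemma norm_two {E : Type} [NormedAddCommGroup E] [NormedSpace ℝ E] (a b : ℝ)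
    (L : E →L[ℝ] E →L[ℝ] ℝ) (l m : E →L[ℝ] ℝ) :
    ‖a • L + (b • l).smulRight m‖ ≤ |a| * ‖L‖ + |b| * ‖l‖ * ‖m‖ := by
  refine (ContinuousLinearMap.opNorm_add_le (a • L) ((b • l).smulRight m)).trans ?_
  rw [norm_smul, ContinuousLinearMap.norm_smulRight_apply, norm_smul, Real.norm_eq_abs, Real.norm_eq_abs]

lemma norm_four {E : Type} [NormedAddCommGroup E] [NormedSpace ℝ E] (a b : ℝ)
    (L L' : E →L[ℝ] E →L[ℝ] ℝ) (l m l' m' : E →L[ℝ] ℝ) :
    ‖(a • L + l.smulRight m) + (b • L' + l'.smulRight m')‖ ≤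
      (|a| * ‖L‖ + ‖l‖ * ‖m‖) + (|b| * ‖L'‖ + ‖l'‖ * ‖m'‖) := by
  refine (ContinuousLinearMap.opNorm_add_le (a • L + l.smulRight m) (b • L' + l'.smulRight m')).trans
    (add_le_add ?_ ?_)
  · have := norm_two a 1 L l m
    simpa using this
  · have := norm_two b 1 L' l' m'
    simpa using this

/-- the radial segment from the unit circle -/
lemma seg_norm {z y : ℂ} (hz : z ≠ 0) (hy : y ∈ segment ℝ ((‖z‖⁻¹ : ℝ) • z) z) :
    ∃ b : ℝ, 0 ≤ b ∧ b ≤ 1 ∧ ‖y‖ = 1 + b * (‖z‖ - 1) := by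
  obtain ⟨a, b, ha, hb, hab, rfl⟩ := hy
  have hz' : 0 < ‖z‖ := norm_pos_iff.2 hz
  refine ⟨b, hb, by linarith, ?_⟩
  have e : a • ((‖z‖⁻¹ : ℝ) • z) + b • z = (a * ‖z‖⁻¹ + b) • z := by
    rw [smul_smul, ← add_smul]
  rw [e, norm_smul, Real.norm_of_nonneg (by positivity)]
  have h1 : ‖z‖⁻¹ * ‖z‖ = 1 := inv_mul_cancel₀ hz'.ne'
  have h2 : a = 1 - b := by linarith
  calc (a * ‖z‖⁻¹ + b) * ‖z‖ = a * (‖z‖⁻¹ * ‖z‖) + b * ‖z‖ := by ring
    _ = 1 + b * (‖z‖ - 1) := by rw [h1, h2]; ring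

lemma seg_Kom {η : ℝ} (hη : 0 < η) {z y : ℂ} (hz : z ∈ Kom η)
    (hy : y ∈ segment ℝ ((‖z‖⁻¹ : ℝ) • z) z) : y ∈ Kom η ∧ |‖y‖ - 1| ≤ |‖z‖ - 1| := by
  have hz0 : z ≠ 0 := by
    rintro rfl
    have := hz.1
    simp at this
    exact absurd this (not_le.2 (Real.exp_pos _))
  obtain ⟨b, hb, hb1, e⟩ := seg_norm hz0 hy
  have h1 : Real.exp (-(η / 2)) ≤ 1 := Real.exp_le_one_iff.2 (by linarith)
  have h2 : 1 ≤ Real.exp (η / 2) := Real.one_le_exp (by positivity)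
  have h3 := hz.1
  have h4 := hz.2
  refine ⟨⟨?_, ?_⟩, ?_⟩
  · rw [e]; nlinarith
  · rw [e]; nlinarith
  · rw [e]
    have : 1 + b * (‖z‖ - 1) - 1 = b * (‖z‖ - 1) := by ring
    rw [this, abs_mul, abs_of_nonneg hb]
    have := abs_nonneg (‖z‖ - 1)
    nlinarith

lemma norm_seg {z : ℂ} (hz : z ≠ 0) : ‖z - (‖z‖⁻¹ : ℝ) • z‖ = |‖z‖ - 1| := by
  have hz' : 0 < ‖z‖ := norm_pos_iff.2 hz
  have e : z - (‖z‖⁻¹ : ℝ) • z = (1 - ‖z‖⁻¹ : ℝ) • z := by rw [sub_smul, one_smul]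
  rw [e, norm_smul, Real.norm_eq_abs]
  nth_rewrite 2 [← abs_of_pos hz']
  rw [← abs_mul]
  congr 1
  have h1 : ‖z‖⁻¹ * ‖z‖ = 1 := inv_mul_cancel₀ hz'.ne'
  calc (1 - ‖z‖⁻¹) * ‖z‖ = ‖z‖ - ‖z‖⁻¹ * ‖z‖ := by ring
    _ = ‖z‖ - 1 := by rw [h1]

/-- a `C²` function which vanishes to first order on the unit circle -/
lemma taylor {η : ℝ} (hη : 0 < η) {u : ℂ → ℝ} (hu : ContDiffOn ℝ ∞ u (Ann η))
    (hc : ∀ z : ℂ, ‖z‖ = 1 → u z = 0 ∧ fderiv ℝ u z = 0) :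
    ∃ B : ℝ, 0 ≤ B ∧ ∀ z ∈ Kom η, |u z| ≤ B * |‖z‖ - 1| ^ 2 ∧ ‖fderiv ℝ u z‖ ≤ B * |‖z‖ - 1| ∧
      ‖fderiv ℝ (fderiv ℝ u) z‖ ≤ B := by
  have hu1 : ContDiffOn ℝ ∞ (fderiv ℝ u) (Ann η) :=
    hu.fderiv_of_isOpen (isOpen_Ann η) (by simp)
  have hu2 : ContDiffOn ℝ ∞ (fderiv ℝ (fderiv ℝ u)) (Ann η) :=
    hu1.fderiv_of_isOpen (isOpen_Ann η) (by simp)
  obtain ⟨B, hB⟩ : ∃ B : ℝ, ∀ y ∈ Kom η, ‖fderiv ℝ (fderiv ℝ u) y‖ ≤ B := by
    exact exists_bound (F := ℂ →L[ℝ] ℂ →L[ℝ] ℝ) (isCompact_Kom η) (hu2.continuousOn.mono (Kom_sub hη))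
  have hB0 : 0 ≤ B := by
    have h1 : (1 : ℂ) ∈ Kom η := by
      constructor
      · rw [norm_one]; exact Real.exp_le_one_iff.2 (by linarith)
      · rw [norm_one]; exact Real.one_le_exp (by linarith)
    exact le_trans (norm_nonneg (fderiv ℝ (fderiv ℝ u) 1)) (hB 1 h1)
  have hd0 : ∀ y ∈ Ann η, HasFDerivAt u (fderiv ℝ u y) y := fun y hy =>
    ((hu.contDiffAt ((isOpen_Ann η).mem_nhds hy)).differentiableAt (by simp)).hasFDerivAt
  have hd1 : ∀ y ∈ Ann η, HasFDerivAt (fderiv ℝ u) (fderiv ℝ (fderiv ℝ u) y) y := fun y hy =>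
    ((hu1.contDiffAt ((isOpen_Ann η).mem_nhds hy)).differentiableAt (by simp)).hasFDerivAt
  have hne : ∀ z ∈ Kom η, z ≠ 0 := by
    rintro z hz rfl
    have := hz.1
    simp at this
    exact absurd this (not_le.2 (Real.exp_pos _))
  have hun : ∀ z ∈ Kom η, ‖(‖z‖⁻¹ : ℝ) • z‖ = 1 := by
    intro z hz
    rw [norm_smul, norm_inv, norm_norm]
    exact inv_mul_cancel₀ (norm_ne_zero_iff.2 (hne z hz))
  have h1 : ∀ z ∈ Kom η, ‖fderiv ℝ u z‖ ≤ B * |‖z‖ - 1| := by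
    intro z hz
    have h := (convex_segment (𝕜 := ℝ) ((‖z‖⁻¹ : ℝ) • z) z).norm_image_sub_le_of_norm_hasFDerivWithin_le
      (f := fderiv ℝ u) (f' := fderiv ℝ (fderiv ℝ u)) (C := B)
      (fun y hy => (hd1 y (Kom_sub hη (seg_Kom hη hz hy).1)).hasFDerivWithinAt)
      (fun y hy => hB y (seg_Kom hη hz hy).1)
      (left_mem_segment ℝ _ _) (right_mem_segment ℝ _ _)
    rw [(hc _ (hun z hz)).2, sub_zero, norm_seg (hne z hz)] at h
    exact h
  refine ⟨B, hB0, fun z hz => ⟨?_, h1 z hz, hB z hz⟩⟩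
  have h := (convex_segment (𝕜 := ℝ) ((‖z‖⁻¹ : ℝ) • z) z).norm_image_sub_le_of_norm_hasFDerivWithin_le
      (f := u) (f' := fderiv ℝ u) (C := B * |‖z‖ - 1|)
      (fun y hy => (hd0 y (Kom_sub hη (seg_Kom hη hz hy).1)).hasFDerivWithinAt)
      (fun y hy => (h1 y (seg_Kom hη hz hy).1).trans
        (mul_le_mul_of_nonneg_left (seg_Kom hη hz hy).2 hB0))
      (left_mem_segment ℝ _ _) (right_mem_segment ℝ _ _)
  rw [(hc _ (hun z hz)).1, sub_zero, norm_seg (hne z hz), Real.norm_eq_abs] at h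
  calc |u z| ≤ B * |‖z‖ - 1| * |‖z‖ - 1| := h
    _ = B * |‖z‖ - 1| ^ 2 := by ring

/-! ### The cutoff function -/

/-- `1` on `[-1, 1]`, `0` for `x² ≥ 2` -/
def bm (x : ℝ) : ℝ := Real.smoothTransition (2 - x ^ 2)

lemma bm_contDiff : ContDiff ℝ ∞ bm := by
  unfold bm
  exact Real.smoothTransition.contDiff.comp (contDiff_const.sub (contDiff_id.pow 2))

lemma bm_nonneg (x : ℝ) : 0 ≤ bm x := Real.smoothTransition.nonneg _
lemma bm_le_one (x : ℝ) : bm x ≤ 1 := Real.smoothTransition.le_one _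

lemma bm_one {x : ℝ} (h : |x| ≤ 1) : bm x = 1 := by
  apply Real.smoothTransition.one_of_one_le
  have : x ^ 2 ≤ 1 := by rw [← sq_abs]; exact pow_le_one₀ (abs_nonneg _) h
  linarith

lemma bm_zero {x : ℝ} (h : 2 ≤ x ^ 2) : bm x = 0 :=
  Real.smoothTransition.zero_of_nonpos (by linarith)

lemma bm_supp : HasCompactSupport bm := by
  refine HasCompactSupport.intro (isCompact_Icc (a := (-2 : ℝ)) (b := 2)) fun x hx => bm_zero ?_
  by_contra h
  apply hx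
  push Not at h
  constructor <;> nlinarith

lemma bm_bounds : ∃ C : ℝ, 0 ≤ C ∧ (∀ x, |deriv bm x| ≤ C) ∧ ∀ x, |deriv (deriv bm) x| ≤ C := by
  have h1 : ContDiff ℝ ∞ (deriv bm) := ((contDiff_infty_iff_deriv (f := bm)).1 bm_contDiff).2
  have h2 : ContDiff ℝ ∞ (deriv (deriv bm)) := ((contDiff_infty_iff_deriv (f := deriv bm)).1 h1).2
  obtain ⟨C1, hC1⟩ := h1.continuous.bounded_above_of_compact_support bm_supp.deriv
  obtain ⟨C2, hC2⟩ := h2.continuous.bounded_above_of_compact_support bm_supp.deriv.deriv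
  refine ⟨max C1 C2, le_max_of_le_left ((norm_nonneg _).trans (hC1 0)), fun x => ?_, fun x => ?_⟩
  · exact (hC1 x).trans (le_max_left _ _)
  · exact (hC2 x).trans (le_max_right _ _)

/-- the square of the norm, minus one -/
def sn (z : ℂ) : ℝ := ‖z‖ ^ 2 - 1

lemma sn_contDiff : ContDiff ℝ ∞ sn := (contDiff_id.norm_sq ℝ).sub contDiff_const

/-- the cutoff function of the annulus of width `k` -/
def cut (k : ℝ) (z : ℂ) : ℝ := bm (k⁻¹ * sn z)

lemma cut_contDiff (k : ℝ) : ContDiff ℝ ∞ (cut k) :=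
  bm_contDiff.comp (contDiff_const.mul sn_contDiff)

lemma cut_fderiv (k : ℝ) (z : ℂ) :
    HasFDerivAt (cut k) ((k⁻¹ * deriv bm (k⁻¹ * sn z)) • fderiv ℝ sn z) z := by
  have h1 : HasFDerivAt sn (fderiv ℝ sn z) z := (sn_contDiff.differentiable (by simp) z).hasFDerivAt
  have h2 : HasFDerivAt (fun y => k⁻¹ * sn y) (k⁻¹ • fderiv ℝ sn z) z := h1.const_mul k⁻¹
  have h3 : HasDerivAt bm (deriv bm (k⁻¹ * sn z)) (k⁻¹ * sn z) :=
    (bm_contDiff.differentiable (by simp) _).hasDerivAt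
  have h4 := h3.comp_hasFDerivAt z h2
  refine h4.congr_fderiv ?_
  rw [smul_smul, mul_comm]

lemma cut_fderiv2 (k : ℝ) (z : ℂ) :
    HasFDerivAt (fderiv ℝ (cut k)) ((k⁻¹ * deriv bm (k⁻¹ * sn z)) • fderiv ℝ (fderiv ℝ sn) z +
      ((k⁻¹ * (k⁻¹ * deriv (deriv bm) (k⁻¹ * sn z))) • fderiv ℝ sn z).smulRight (fderiv ℝ sn z)) z := by
  have e : fderiv ℝ (cut k) = fun y => (k⁻¹ * deriv bm (k⁻¹ * sn y)) • fderiv ℝ sn y :=
    funext fun y => (cut_fderiv k y).fderiv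
  rw [e]
  have h1 : HasFDerivAt sn (fderiv ℝ sn z) z := (sn_contDiff.differentiable (by simp) z).hasFDerivAt
  have h2 : HasFDerivAt (fun y => k⁻¹ * sn y) (k⁻¹ • fderiv ℝ sn z) z := h1.const_mul k⁻¹
  have hb1 : ContDiff ℝ ∞ (deriv bm) := ((contDiff_infty_iff_deriv (f := bm)).1 bm_contDiff).2
  have h3 : HasDerivAt (deriv bm) (deriv (deriv bm) (k⁻¹ * sn z)) (k⁻¹ * sn z) :=
    (hb1.differentiable (by simp) _).hasDerivAt
  have h34 : HasFDerivAt (fun y => deriv bm (k⁻¹ * sn y))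
      (deriv (deriv bm) (k⁻¹ * sn z) • (k⁻¹ • fderiv ℝ sn z)) z :=
    HasDerivAt.comp_hasFDerivAt (h₂ := deriv bm) (f := fun y => k⁻¹ * sn y) z h3 h2
  have h4 : HasFDerivAt (fun y => k⁻¹ * deriv bm (k⁻¹ * sn y))
      (k⁻¹ • (deriv (deriv bm) (k⁻¹ * sn z) • (k⁻¹ • fderiv ℝ sn z))) z := h34.const_mul k⁻¹
  have h5 : ContDiff ℝ ∞ (fderiv ℝ sn) := sn_contDiff.fderiv_right (by simp)
  have h6 : HasFDerivAt (fderiv ℝ sn) (fderiv ℝ (fderiv ℝ sn) z) z :=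
    (h5.differentiable (by simp) z).hasFDerivAt
  have h7 := h4.smul h6
  refine h7.congr_fderiv ?_
  congr 2
  rw [smul_smul, smul_smul]
  congr 1
  ring

theorem s_COP : S_COP := by
  intro η u hη hu hc α ε hα hα1 hε
  change ContDiffOn ℝ ∞ u (Ann η) at hu
  obtain ⟨B, hB0, hB⟩ := taylor hη hu hc
  obtain ⟨C2, hC20, hC2, hC2'⟩ := bm_bounds
  have hs1 : Continuous (fderiv ℝ sn) := (sn_contDiff.fderiv_right (m := ∞) (by simp)).continuous
  have hs2 : Continuous (fderiv ℝ (fderiv ℝ sn)) :=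
    ((sn_contDiff.fderiv_right (m := ∞) (by simp)).fderiv_right (m := ∞) (by simp)).continuous
  obtain ⟨C1, hC1⟩ : ∃ B : ℝ, ∀ y ∈ Kom η, ‖fderiv ℝ sn y‖ ≤ B := by
    exact exists_bound (F := ℂ →L[ℝ] ℝ) (isCompact_Kom η) hs1.continuousOn
  obtain ⟨C1', hC1'⟩ : ∃ B : ℝ, ∀ y ∈ Kom η, ‖fderiv ℝ (fderiv ℝ sn) y‖ ≤ B := by
    exact exists_bound (F := ℂ →L[ℝ] ℂ →L[ℝ] ℝ) (isCompact_Kom η) hs2.continuousOn
  have h1K : (1 : ℂ) ∈ Kom η := by
    constructor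
    · rw [norm_one]; exact Real.exp_le_one_iff.2 (by linarith)
    · rw [norm_one]; exact Real.one_le_exp (by linarith)
  have hC10 : 0 ≤ C1 := le_trans (norm_nonneg (fderiv ℝ sn 1)) (hC1 1 h1K)
  have hC10' : 0 ≤ C1' := le_trans (norm_nonneg (fderiv ℝ (fderiv ℝ sn) 1)) (hC1' 1 h1K)
  -- the constants
  set M1 : ℝ := 2 * B + 4 * B * (C2 * C1) with hM1
  set M2 : ℝ := B + 4 * B * (C2 * C1) + 4 * B * (C2 * C1' + C2 * C1 * C1) with hM2
  have hM10 : 0 ≤ M1 := by positivity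
  have hM20 : 0 ≤ M2 := by positivity
  obtain ⟨δ, hδ, hδM⟩ : ∃ δ : ℝ, 0 < δ ∧ M2 * δ ^ (1 - α) ≤ ε := by
    have ht : Tendsto (fun x : ℝ => M2 * x ^ (1 - α)) (𝓝[>] 0) (𝓝 (M2 * 0)) := by
      refine Tendsto.const_mul _ ?_
      have := (Real.continuousAt_rpow_const 0 (1 - α) (Or.inr (by linarith))).tendsto
      rw [Real.zero_rpow (by linarith)] at this
      exact this.mono_left nhdsWithin_le_nhds
    rw [mul_zero] at ht
    have h1 := (ht.eventually (gt_mem_nhds hε)).and self_mem_nhdsWithin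
    obtain ⟨x, hx1, hx2⟩ := h1.exists
    exact ⟨x, hx2, le_of_lt hx1⟩
  have hc0 : 0 < 1 - Real.exp (-η) := by
    have : Real.exp (-η) < 1 := by rw [← Real.exp_zero]; exact Real.exp_lt_exp.2 (by linarith)
    linarith
  obtain ⟨k, hk, hk1, hkη, hkB, hkM, hkδ⟩ : ∃ k : ℝ, 0 < k ∧ k ≤ 1 ∧ 2 * k ≤ 1 - Real.exp (-η) ∧
      4 * B * k ^ 2 ≤ ε ∧ M1 * k ≤ ε ∧ 2 * (M1 * k) ≤ ε * δ ^ α := by
    have hδα : 0 < ε * δ ^ α := mul_pos hε (Real.rpow_pos_of_pos hδ _)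
    refine ⟨min 1 (min ((1 - Real.exp (-η)) / 2) (min (ε / (4 * B + 1)) (min (ε / (M1 + 1))
      (ε * δ ^ α / (2 * (M1 + 1)))))), by positivity, min_le_left _ _, ?_, ?_, ?_, ?_⟩
    all_goals
      set k := min 1 (min ((1 - Real.exp (-η)) / 2) (min (ε / (4 * B + 1)) (min (ε / (M1 + 1))
        (ε * δ ^ α / (2 * (M1 + 1)))))) with hk
      have k0 : 0 < k := by positivity
      have k1 : k ≤ 1 := min_le_left _ _
      have k2 : k ≤ (1 - Real.exp (-η)) / 2 := (min_le_right _ _).trans (min_le_left _ _)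
      have k3 : k ≤ ε / (4 * B + 1) :=
        (min_le_right _ _).trans ((min_le_right _ _).trans (min_le_left _ _))
      have k4 : k ≤ ε / (M1 + 1) :=
        (min_le_right _ _).trans ((min_le_right _ _).trans ((min_le_right _ _).trans (min_le_left _ _)))
      have k5 : k ≤ ε * δ ^ α / (2 * (M1 + 1)) :=
        (min_le_right _ _).trans ((min_le_right _ _).trans ((min_le_right _ _).trans (min_le_right _ _)))
    · linarith
    · rw [le_div_iff₀ (by positivity)] at k3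
      nlinarith
    · rw [le_div_iff₀ (by positivity)] at k4
      nlinarith
    · rw [le_div_iff₀ (by positivity)] at k5
      nlinarith
  -- the function
  set g : ℂ → ℝ := fun z => cut k z * u z with hg
  set S : Set ℂ := {z | sn z ^ 2 ≤ 2 * k ^ 2} with hS
  have hSc : IsClosed S := isClosed_le (sn_contDiff.continuous.pow 2) continuous_const
  have hSk : ∀ z ∈ S, |‖z‖ - 1| ≤ 2 * k ∧ z ∈ Kom η := by
    intro z hz
    have h1 : |sn z| ≤ 2 * k := by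
      refine abs_le_of_sq_le_sq ?_ (by positivity)
      have : sn z ^ 2 ≤ 2 * k ^ 2 := hz
      nlinarith
    have h0 : 0 ≤ ‖z‖ := norm_nonneg z
    have h2 : sn z = (‖z‖ - 1) * (‖z‖ + 1) := by unfold sn; ring
    refine ⟨?_, ?_⟩
    · rw [h2, abs_mul, abs_of_nonneg (by positivity : 0 ≤ ‖z‖ + 1)] at h1
      have := abs_nonneg (‖z‖ - 1)
      nlinarith
    · obtain ⟨h3, h4⟩ := abs_le.1 h1
      unfold sn at h3 h4
      have e1 : Real.exp (-η) = Real.exp (-(η / 2)) ^ 2 := by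
        rw [← Real.exp_nat_mul]; congr 1; push_cast; ring
      have e2 : Real.exp (η / 2) ^ 2 * Real.exp (-η) = 1 := by
        rw [← Real.exp_nat_mul, ← Real.exp_add]
        have : ((2 : ℕ) : ℝ) * (η / 2) + -η = 0 := by push_cast; ring
        rw [this, Real.exp_zero]
      have hp1 := Real.exp_pos (-(η / 2))
      have hp2 := Real.exp_pos (η / 2)
      have hp3 := Real.exp_pos (-η)
      constructor
      · refine le_of_sq_le_sq ?_ h0
        rw [← e1]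
        linarith
      · refine le_of_sq_le_sq ?_ hp2.le
        -- `‖z‖² ≤ 1 + 2k ≤ 2 - exp (-η) ≤ exp η`
        have h5 : ‖z‖ ^ 2 ≤ 2 - Real.exp (-η) := by linarith
        have h6 : 2 - Real.exp (-η) ≤ Real.exp (η / 2) ^ 2 := by
          have : (Real.exp (η / 2) ^ 2 - 1) * (1 - Real.exp (-η)) ≥ 0 := by
            refine mul_nonneg ?_ hc0.le
            have : 1 ≤ Real.exp (η / 2) ^ 2 := one_le_pow₀ (Real.one_le_exp (by positivity))
            linarith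
          nlinarith
        linarith
  have hcut0 : ∀ z, z ∉ S → cut k z = 0 := by
    intro z hz
    apply bm_zero
    have : 2 * k ^ 2 < sn z ^ 2 := not_le.1 hz
    rw [mul_pow, inv_pow]
    rw [← div_eq_inv_mul, le_div_iff₀ (by positivity)]
    exact this.le
  have hg0 : ∀ z, z ∉ S → g =ᶠ[𝓝 z] fun _ => 0 := by
    intro z hz
    filter_upwards [hSc.isOpen_compl.mem_nhds hz] with y hy
    simp only [hg]
    rw [hcut0 y hy, zero_mul]
  have hSA : S ⊆ Ann η := fun z hz => Kom_sub hη (hSk z hz).2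
  have hgsm : ContDiff ℝ ∞ g := by
    rw [contDiff_iff_contDiffAt]
    intro z
    by_cases hz : z ∈ S
    · exact (cut_contDiff k).contDiffAt.mul (hu.contDiffAt ((isOpen_Ann η).mem_nhds (hSA hz)))
    · exact contDiffAt_const.congr_of_eventuallyEq (hg0 z hz)
  -- derivatives on the open annulus
  have hu1 : ContDiffOn ℝ ∞ (fderiv ℝ u) (Ann η) :=
    hu.fderiv_of_isOpen (isOpen_Ann η) (by simp)
  have hd0 : ∀ y ∈ Ann η, HasFDerivAt u (fderiv ℝ u y) y := fun y hy =>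
    ((hu.contDiffAt ((isOpen_Ann η).mem_nhds hy)).differentiableAt (by simp)).hasFDerivAt
  have hd1 : ∀ y ∈ Ann η, HasFDerivAt (fderiv ℝ u) (fderiv ℝ (fderiv ℝ u) y) y := fun y hy =>
    ((hu1.contDiffAt ((isOpen_Ann η).mem_nhds hy)).differentiableAt (by simp)).hasFDerivAt
  have hgd : ∀ y ∈ Ann η, fderiv ℝ g y = cut k y • fderiv ℝ u y + u y • fderiv ℝ (cut k) y := by
    intro y hy
    have h1 : HasFDerivAt (cut k) (fderiv ℝ (cut k) y) y :=
      ((cut_contDiff k).differentiable (by simp) y).hasFDerivAt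
    exact (h1.mul (hd0 y hy)).fderiv
  have hgd2 : ∀ y ∈ Ann η, HasFDerivAt (fderiv ℝ g)
      ((cut k y • fderiv ℝ (fderiv ℝ u) y + (fderiv ℝ (cut k) y).smulRight (fderiv ℝ u y)) +
        (u y • fderiv ℝ (fderiv ℝ (cut k)) y + (fderiv ℝ u y).smulRight (fderiv ℝ (cut k) y))) y := by
    intro y hy
    have h1 : HasFDerivAt (cut k) (fderiv ℝ (cut k) y) y :=
      ((cut_contDiff k).differentiable (by simp) y).hasFDerivAt
    have h2 : HasFDerivAt (fderiv ℝ (cut k)) (fderiv ℝ (fderiv ℝ (cut k)) y) y :=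
      (cut_fderiv2 k y).differentiableAt.hasFDerivAt
    have h3 := (h1.smul (hd1 y hy)).add ((hd0 y hy).smul h2)
    refine h3.congr_of_eventuallyEq ?_
    filter_upwards [(isOpen_Ann η).mem_nhds hy] with x hx
    exact hgd x hx
  -- bounds for the cutoff function
  have hcb1 : ∀ z ∈ S, ‖fderiv ℝ (cut k) z‖ ≤ k⁻¹ * (C2 * C1) := by
    intro z hz
    rw [(cut_fderiv k z).fderiv, norm_smul, Real.norm_eq_abs, abs_mul, abs_of_pos (inv_pos.2 hk), mul_assoc]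
    have := hC2 (k⁻¹ * sn z)
    have := hC1 z (hSk z hz).2
    gcongr
  have hcb2 : ∀ z ∈ S, ‖fderiv ℝ (fderiv ℝ (cut k)) z‖ ≤ k⁻¹ ^ 2 * (C2 * C1' + C2 * C1 * C1) := by
    intro z hz
    rw [(cut_fderiv2 k z).fderiv]
    have hk' : k⁻¹ ≤ k⁻¹ ^ 2 := by
      have : 1 ≤ k⁻¹ := (one_le_inv₀ hk).2 hk1
      nlinarith
    have hki : 0 < k⁻¹ := inv_pos.2 hk
    have n1 := hC1 z (hSk z hz).2
    have n2 := hC1' z (hSk z hz).2
    calc ‖(k⁻¹ * deriv bm (k⁻¹ * sn z)) • fderiv ℝ (fderiv ℝ sn) z +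
          ((k⁻¹ * (k⁻¹ * deriv (deriv bm) (k⁻¹ * sn z))) • fderiv ℝ sn z).smulRight (fderiv ℝ sn z)‖
        ≤ |k⁻¹ * deriv bm (k⁻¹ * sn z)| * ‖fderiv ℝ (fderiv ℝ sn) z‖ +
          |k⁻¹ * (k⁻¹ * deriv (deriv bm) (k⁻¹ * sn z))| * ‖fderiv ℝ sn z‖ * ‖fderiv ℝ sn z‖ :=
          norm_two _ _ _ _ _
      _ ≤ k⁻¹ * (C2 * C1') + k⁻¹ ^ 2 * (C2 * C1 * C1) := by
          refine add_le_add ?_ ?_
          · rw [abs_mul, abs_of_pos hki, mul_assoc]
            gcongr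
            exact hC2 _
          · rw [abs_mul, abs_mul, abs_of_pos hki]
            calc k⁻¹ * (k⁻¹ * |deriv (deriv bm) (k⁻¹ * sn z)|) * ‖fderiv ℝ sn z‖ * ‖fderiv ℝ sn z‖
                ≤ k⁻¹ * (k⁻¹ * C2) * C1 * C1 := by
                  gcongr
                  exact hC2' _
              _ = k⁻¹ ^ 2 * (C2 * C1 * C1) := by ring
      _ ≤ k⁻¹ ^ 2 * (C2 * C1') + k⁻¹ ^ 2 * (C2 * C1 * C1) := by gcongr
      _ = _ := by ring
  have hub : ∀ z ∈ S, |u z| ≤ 4 * B * k ^ 2 ∧ ‖fderiv ℝ u z‖ ≤ 2 * B * k ∧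
      ‖fderiv ℝ (fderiv ℝ u) z‖ ≤ B := by
    intro z hz
    obtain ⟨h1, h2⟩ := hSk z hz
    obtain ⟨a1, a2, a3⟩ := hB z h2
    refine ⟨a1.trans ?_, a2.trans ?_, a3⟩
    · calc B * |‖z‖ - 1| ^ 2 ≤ B * (2 * k) ^ 2 := by gcongr
        _ = 4 * B * k ^ 2 := by ring
    · calc B * |‖z‖ - 1| ≤ B * (2 * k) := by gcongr
        _ = 2 * B * k := by ring
  have hkk : k * k⁻¹ = 1 := mul_inv_cancel₀ hk.ne'
  have hgb0 : ∀ z, |g z| ≤ ε := by
    intro z
    by_cases hz : z ∈ S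
    · simp only [hg]
      rw [abs_mul, abs_of_nonneg (show 0 ≤ cut k z from bm_nonneg _)]
      calc cut k z * |u z| ≤ 1 * (4 * B * k ^ 2) := by
            gcongr
            · exact bm_le_one _
            · exact (hub z hz).1
        _ ≤ ε := by linarith
    · rw [(hg0 z hz).eq_of_nhds]
      simpa using hε.le
  have hgb1 : ∀ z, ‖fderiv ℝ g z‖ ≤ M1 * k := by
    intro z
    by_cases hz : z ∈ S
    · rw [hgd z (hSA hz)]
      obtain ⟨a1, a2, -⟩ := hub z hz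
      have a4 := hcb1 z hz
      calc ‖cut k z • fderiv ℝ u z + u z • fderiv ℝ (cut k) z‖
          ≤ ‖cut k z • fderiv ℝ u z‖ + ‖u z • fderiv ℝ (cut k) z‖ := norm_add_le _ _
        _ ≤ 1 * (2 * B * k) + (4 * B * k ^ 2) * (k⁻¹ * (C2 * C1)) := by
            rw [norm_smul, norm_smul, Real.norm_eq_abs, Real.norm_eq_abs,
              abs_of_nonneg (show 0 ≤ cut k z from bm_nonneg _)]
            gcongr
            exact bm_le_one _
        _ = 2 * B * k + 4 * B * k * (k * k⁻¹) * (C2 * C1) := by ring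
        _ = M1 * k := by rw [hkk, hM1]; ring
    · rw [(hg0 z hz).fderiv_eq]
      simp
      positivity
  have hgb2 : ∀ z, ‖fderiv ℝ (fderiv ℝ g) z‖ ≤ M2 := by
    intro z
    by_cases hz : z ∈ S
    · rw [(hgd2 z (hSA hz)).fderiv]
      obtain ⟨a1, a2, a3⟩ := hub z hz
      have a4 := hcb1 z hz
      have a5 := hcb2 z hz
      calc ‖(cut k z • fderiv ℝ (fderiv ℝ u) z + (fderiv ℝ (cut k) z).smulRight (fderiv ℝ u z)) +
          (u z • fderiv ℝ (fderiv ℝ (cut k)) z + (fderiv ℝ u z).smulRight (fderiv ℝ (cut k) z))‖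
          ≤ (|cut k z| * ‖fderiv ℝ (fderiv ℝ u) z‖ + ‖fderiv ℝ (cut k) z‖ * ‖fderiv ℝ u z‖) +
            (|u z| * ‖fderiv ℝ (fderiv ℝ (cut k)) z‖ + ‖fderiv ℝ u z‖ * ‖fderiv ℝ (cut k) z‖) :=
            norm_four _ _ _ _ _ _ _ _
        _ ≤ (1 * B + (k⁻¹ * (C2 * C1)) * (2 * B * k)) +
            ((4 * B * k ^ 2) * (k⁻¹ ^ 2 * (C2 * C1' + C2 * C1 * C1)) + (2 * B * k) * (k⁻¹ * (C2 * C1))) := by
            rw [abs_of_nonneg (show 0 ≤ cut k z from bm_nonneg _)]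
            gcongr
            exact bm_le_one _
        _ = B + 4 * B * (k * k⁻¹) * (C2 * C1) + 4 * B * (k * k⁻¹) ^ 2 * (C2 * C1' + C2 * C1 * C1) := by ring
        _ = M2 := by rw [hkk, hM2]; ring
    · have : fderiv ℝ g =ᶠ[𝓝 z] fun _ => 0 := by
        filter_upwards [hSc.isOpen_compl.mem_nhds hz] with y hy
        rw [(hg0 y hy).fderiv_eq]
        simp
      rw [this.fderiv_eq]
      have h0 : fderiv ℝ (fun _ : ℂ => (0 : ℂ →L[ℝ] ℝ)) z = 0 := (hasFDerivAt_const _ _).fderiv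
      rw [h0]
      exact (le_of_eq (ContinuousLinearMap.opNorm_zero (E := ℂ) (F := ℂ →L[ℝ] ℝ))).trans hM20
  have hgd1 : ContDiff ℝ ∞ (fderiv ℝ g) := hgsm.fderiv_right (by simp)
  -- the width of the plateau
  obtain ⟨κ, hκ, hκη, hκ1⟩ : ∃ κ : ℝ, 0 < κ ∧ κ < η ∧ Real.exp (2 * κ) ≤ 1 + k := by
    have hl : 0 < Real.log (1 + k) := Real.log_pos (by linarith)
    refine ⟨min (η / 2) (Real.log (1 + k) / 2), by positivity, ?_, ?_⟩
    · exact (min_le_left _ _).trans_lt (by linarith)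
    · have h1 : 2 * min (η / 2) (Real.log (1 + k) / 2) ≤ Real.log (1 + k) := by
        have := min_le_right (η / 2) (Real.log (1 + k) / 2)
        linarith
      calc Real.exp (2 * min (η / 2) (Real.log (1 + k) / 2)) ≤ Real.exp (Real.log (1 + k)) :=
            Real.exp_le_exp.2 h1
        _ = 1 + k := Real.exp_log (by linarith)
  refine ⟨g, κ, hκ, hκη, hgsm, ?_, ?_, hgb0, fun z => (hgb1 z).trans hkM, ?_⟩
  · refine (closure_minimal ?_ hSc).trans hSA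
    intro z hz
    by_contra h
    exact hz (hg0 z h).eq_of_nhds
  · intro z h1 h2
    have h3 : ‖z‖ ^ 2 ≤ 1 + k := by
      calc ‖z‖ ^ 2 ≤ Real.exp κ ^ 2 := by gcongr
        _ = Real.exp (2 * κ) := by rw [← Real.exp_nat_mul]; push_cast; ring_nf
        _ ≤ 1 + k := hκ1
    have h4 : 1 - k ≤ ‖z‖ ^ 2 := by
      have e1 : Real.exp (-κ) ^ 2 * Real.exp (2 * κ) = 1 := by
        rw [← Real.exp_nat_mul, ← Real.exp_add]
        have : ((2 : ℕ) : ℝ) * -κ + 2 * κ = 0 := by push_cast; ring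
        rw [this, Real.exp_zero]
      have e2 : 0 < Real.exp (-κ) ^ 2 := by positivity
      have e3 : Real.exp (-κ) ^ 2 ≤ ‖z‖ ^ 2 := by gcongr
      have e4 : 1 ≤ Real.exp (-κ) ^ 2 * (1 + k) :=
        e1.symm.le.trans (mul_le_mul_of_nonneg_left hκ1 e2.le)
      have e5 : 1 - k ≤ Real.exp (-κ) ^ 2 := by
        have : Real.exp (-κ) ^ 2 ≤ 1 := by
          have : Real.exp (-κ) ≤ 1 := Real.exp_le_one_iff.2 (by linarith)
          exact pow_le_one₀ (Real.exp_pos _).le this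
        nlinarith
      linarith
    have h5 : cut k z = 1 := by
      apply bm_one
      rw [abs_mul, abs_of_pos (inv_pos.2 hk), ← div_eq_inv_mul, div_le_one hk, abs_le]
      unfold sn
      constructor <;> linarith
    simp only [hg]
    rw [h5, one_mul]
  · intro z z'
    have hL : ‖fderiv ℝ g z - fderiv ℝ g z'‖ ≤ M2 * ‖z - z'‖ := by
      have h := (convex_univ (𝕜 := ℝ) (E := ℂ)).norm_image_sub_le_of_norm_hasFDerivWithin_le
        (f := fderiv ℝ g) (f' := fderiv ℝ (fderiv ℝ g)) (C := M2) (x := z') (y := z)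
        (fun y _ => ((hgd1.differentiable (by simp) y).hasFDerivAt).hasFDerivWithinAt)
        (fun y _ => hgb2 y) (mem_univ _) (mem_univ _)
      exact h
    have hL2 : ‖fderiv ℝ g z - fderiv ℝ g z'‖ ≤ 2 * (M1 * k) := by
      calc ‖fderiv ℝ g z - fderiv ℝ g z'‖ ≤ ‖fderiv ℝ g z‖ + ‖fderiv ℝ g z'‖ := norm_sub_le _ _
        _ ≤ M1 * k + M1 * k := add_le_add (hgb1 z) (hgb1 z')
        _ = _ := by ring
    rcases le_or_gt ‖z - z'‖ δ with hd | hd
    · rcases eq_or_lt_of_le (norm_nonneg (z - z')) with h0 | h0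
      · rw [← h0, Real.zero_rpow hα.ne', mul_zero]
        rw [← h0, mul_zero] at hL
        exact hL
      · calc ‖fderiv ℝ g z - fderiv ℝ g z'‖ ≤ M2 * ‖z - z'‖ := hL
          _ = M2 * ‖z - z'‖ ^ (1 - α) * ‖z - z'‖ ^ α := by
              rw [mul_assoc, ← Real.rpow_add h0]
              have : 1 - α + α = 1 := by ring
              rw [this, Real.rpow_one]
          _ ≤ M2 * δ ^ (1 - α) * ‖z - z'‖ ^ α := by
              gcongr
          _ ≤ ε * ‖z - z'‖ ^ α := by gcongr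
    · calc ‖fderiv ℝ g z - fderiv ℝ g z'‖ ≤ 2 * (M1 * k) := hL2
        _ ≤ ε * δ ^ α := hkδ
        _ ≤ ε * ‖z - z'‖ ^ α := by gcongr

end Pool.Agent.L7h46.SB
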