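import Pool.Agent.L7h70.SB.Stm

/-!
# Project SB: round bands are dense (`S_DEN`)
-/

set_option autoImplicit false

open Set Filter Topology MeasureTheory
open scoped Real ContDiff
open Pool.Agent.Y262.QE Pool.Agent.Y264.QR

noncomputable section

namespace Pool.Agent.L7h46.SB

open Pool.Agent.L7h70.SB

/-- the square of the distance from `z₀` -/
def sq (z₀ z : ℂ) : ℝ := ‖z - z₀‖ ^ 2

lemma sq_contDiff (z₀ : ℂ) : ContDiff ℝ ∞ (sq z₀) :=
  (contDiff_id.sub contDiff_const).norm_sq ℝ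

/-- the cutoff function of the annulus `R² exp (-3 η) < |z - z₀|² < R² exp (3 η)` -/
def chi (z₀ : ℂ) (R η : ℝ) (z : ℂ) : ℝ :=
  Real.smoothTransition ((sq z₀ z - R ^ 2 * Real.exp (-3 * η)) /
      (R ^ 2 * (Real.exp (-2 * η) - Real.exp (-3 * η)))) *
    Real.smoothTransition ((R ^ 2 * Real.exp (3 * η) - sq z₀ z) /
      (R ^ 2 * (Real.exp (3 * η) - Real.exp (2 * η))))

lemma chi_contDiff (z₀ : ℂ) (R η : ℝ) : ContDiff ℝ ∞ (chi z₀ R η) := by
  unfold chi
  have h := sq_contDiff z₀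
  exact (Real.smoothTransition.contDiff.comp ((h.sub contDiff_const).div_const _)).mul
    (Real.smoothTransition.contDiff.comp ((contDiff_const.sub h).div_const _))

lemma chi_nonneg (z₀ : ℂ) (R η : ℝ) (z : ℂ) : 0 ≤ chi z₀ R η z :=
  mul_nonneg (Real.smoothTransition.nonneg _) (Real.smoothTransition.nonneg _)

lemma chi_le_one (z₀ : ℂ) (R η : ℝ) (z : ℂ) : chi z₀ R η z ≤ 1 :=
  mul_le_one₀ (Real.smoothTransition.le_one _) (Real.smoothTransition.nonneg _)
    (Real.smoothTransition.le_one _)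

variable {z₀ : ℂ} {R η : ℝ}

lemma den1 (hR : 0 < R) (hη : 0 < η) : 0 < R ^ 2 * (Real.exp (-2 * η) - Real.exp (-3 * η)) :=
  mul_pos (by positivity) (sub_pos.2 (Real.exp_lt_exp.2 (by linarith)))

lemma den2 (hR : 0 < R) (hη : 0 < η) : 0 < R ^ 2 * (Real.exp (3 * η) - Real.exp (2 * η)) :=
  mul_pos (by positivity) (sub_pos.2 (Real.exp_lt_exp.2 (by linarith)))

lemma chi_one (hR : 0 < R) (hη : 0 < η) {z : ℂ} (h1 : R * Real.exp (-η) ≤ ‖z - z₀‖)
    (h2 : ‖z - z₀‖ ≤ R * Real.exp η) : chi z₀ R η z = 1 := by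
  have e1 : R ^ 2 * Real.exp (-2 * η) ≤ sq z₀ z := by
    have : R ^ 2 * Real.exp (-2 * η) = (R * Real.exp (-η)) ^ 2 := by
      rw [mul_pow, ← Real.exp_nat_mul]; congr 2; push_cast; ring
    rw [this]
    exact pow_le_pow_left₀ (by positivity) h1 2
  have e2 : sq z₀ z ≤ R ^ 2 * Real.exp (2 * η) := by
    have : R ^ 2 * Real.exp (2 * η) = (R * Real.exp η) ^ 2 := by
      rw [mul_pow, ← Real.exp_nat_mul]; congr 2
    rw [this]
    exact pow_le_pow_left₀ (norm_nonneg _) h2 2
  unfold chi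
  rw [Real.smoothTransition.one_of_one_le, Real.smoothTransition.one_of_one_le, one_mul]
  · rw [le_div_iff₀ (den2 hR hη)]; linarith
  · rw [le_div_iff₀ (den1 hR hη)]; linarith

lemma chi_ne (hR : 0 < R) (hη : 0 < η) {z : ℂ} (h : chi z₀ R η z ≠ 0) :
    R ^ 2 * Real.exp (-3 * η) < sq z₀ z ∧ sq z₀ z < R ^ 2 * Real.exp (3 * η) := by
  unfold chi at h
  constructor
  · by_contra h'
    push Not at h'
    apply h
    rw [Real.smoothTransition.zero_of_nonpos, zero_mul]
    exact div_nonpos_of_nonpos_of_nonneg (by linarith) (den1 hR hη).le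
  · by_contra h'
    push Not at h'
    apply h
    rw [Real.smoothTransition.zero_of_nonpos (x := (R ^ 2 * Real.exp (3 * η) - sq z₀ z) / _), mul_zero]
    exact div_nonpos_of_nonpos_of_nonneg (by linarith) (den2 hR hη).le

/-- the conformal factor of the sphere, relative to its value on the equator -/
def kr (z₀ : ℂ) (R : ℝ) (z : ℂ) : ℝ := (2 * R ^ 2 / (R ^ 2 + sq z₀ z)) ^ 2

lemma kr_pos (hR : 0 < R) (z : ℂ) : 0 < kr z₀ R z := by
  unfold kr sq; positivity

lemma kr_contDiff (hR : 0 < R) : ContDiff ℝ ∞ (kr z₀ R) := by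
  unfold kr
  refine ContDiff.pow (ContDiff.div contDiff_const (contDiff_const.add (sq_contDiff z₀)) ?_) 2
  intro x
  unfold sq
  positivity

lemma kr_log (hR : 0 < R) (hη : 0 < η) {z : ℂ} (h1 : R ^ 2 * Real.exp (-3 * η) < sq z₀ z)
    (h2 : sq z₀ z < R ^ 2 * Real.exp (3 * η)) : |Real.log (kr z₀ R z)| ≤ 6 * η := by
  have hp : 0 < R ^ 2 + sq z₀ z := by unfold sq; positivity
  have hq : 0 < 2 * R ^ 2 / (R ^ 2 + sq z₀ z) := by positivity
  unfold kr
  rw [Real.log_pow, abs_mul]
  have e3 : Real.exp (3 * η) * Real.exp (-3 * η) = 1 := by rw [← Real.exp_add]; simp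
  have h3 : 1 ≤ Real.exp (3 * η) := Real.one_le_exp (by positivity)
  have h4 : Real.exp (-3 * η) ≤ 1 := Real.exp_le_one_iff.2 (by linarith)
  have h4' : 0 < Real.exp (-3 * η) := Real.exp_pos _
  have hR2 : 0 < R ^ 2 := by positivity
  have : |Real.log (2 * R ^ 2 / (R ^ 2 + sq z₀ z))| ≤ 3 * η := by
    rw [abs_le]
    constructor
    · rw [Real.le_log_iff_exp_le hq, le_div_iff₀ hp]
      have : -(3 * η) = -3 * η := by ring
      rw [this]
      calc Real.exp (-3 * η) * (R ^ 2 + sq z₀ z)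
          ≤ Real.exp (-3 * η) * (R ^ 2 + R ^ 2 * Real.exp (3 * η)) := by gcongr
        _ = Real.exp (-3 * η) * R ^ 2 + R ^ 2 * (Real.exp (3 * η) * Real.exp (-3 * η)) := by ring
        _ ≤ 2 * R ^ 2 := by rw [e3]; nlinarith
    · rw [Real.log_le_iff_le_exp hq, div_le_iff₀ hp]
      calc 2 * R ^ 2 ≤ Real.exp (3 * η) * R ^ 2 + R ^ 2 * (Real.exp (3 * η) * Real.exp (-3 * η)) := by
            rw [e3]; nlinarith
        _ = Real.exp (3 * η) * (R ^ 2 + R ^ 2 * Real.exp (-3 * η)) := by ring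
        _ ≤ Real.exp (3 * η) * (R ^ 2 + sq z₀ z) := by gcongr
  have h2' : |((2 : ℕ) : ℝ)| = 2 := by norm_num
  rw [h2']
  linarith

theorem s_DEN : S_DEN := by
  intro M _ _ _ _ μ D hD i z₀ r hr hiso φ ε hε
  set B := Metric.ball z₀ r with hB
  have hBT : B ⊆ D.T i := fun z hz => (hiso z hz).1
  set H : ℂ → ℝ := fun z => Real.exp (φ (D.ψ i z)) * ‖D.A i z 1‖ ^ 2 with hH
  have hApos : ∀ z ∈ D.T i, D.A i z 1 ≠ 0 := by
    intro z hz h0
    apply hD.det i z hz
    have h1 : ¬ Function.Injective (D.A i z : ℂ →ₗ[ℝ] ℂ) := by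
      intro hinj
      have : (1 : ℂ) = 0 := hinj (by simpa using h0)
      exact one_ne_zero this
    by_contra hdet
    apply h1
    have := (LinearMap.equivOfDetNeZero (D.A i z : ℂ →ₗ[ℝ] ℂ) hdet).injective
    exact this
  have hHpos : ∀ z ∈ B, 0 < H z := by
    intro z hz
    have := norm_pos_iff.2 (hApos z (hBT hz))
    simp only [hH]
    positivity
  have hHc : ContinuousOn H B := by
    have h1 : ContinuousOn (fun z => φ (D.ψ i z)) B :=
      φ.continuous.comp_continuousOn ((hD.contψ i).mono hBT)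
    have h2 : ContinuousOn (fun z => D.A i z 1) B :=
      ((hD.contA i).mono hBT).clm_apply continuousOn_const
    exact (Real.continuous_exp.comp_continuousOn h1).mul (h2.norm.pow 2)
  have hLc : ContinuousOn (fun z => Real.log (H z)) B :=
    hHc.log fun z hz => (hHpos z hz).ne'
  have hz0 : z₀ ∈ B := Metric.mem_ball_self hr
  -- the radius
  obtain ⟨δ, hδ, hδ'⟩ : ∃ δ > 0, ∀ z ∈ B, dist z z₀ < δ → |Real.log (H z) - Real.log (H z₀)| < ε / 4 := by
    have := Metric.continuousWithinAt_iff.1 (hLc z₀ hz0) (ε / 4) (by positivity)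
    obtain ⟨δ, hδ, h⟩ := this
    exact ⟨δ, hδ, fun z hz hd => by simpa [Real.dist_eq] using h hz hd⟩
  set R := min δ r / 4 with hRdef
  have hR : 0 < R := by positivity
  have hR1 : 2 * R < δ := by
    have : min δ r ≤ δ := min_le_left _ _
    have h0 : 0 < min δ r := by positivity
    simp only [hRdef]; linarith
  have hR2 : 2 * R < r := by
    have : min δ r ≤ r := min_le_right _ _
    have h0 : 0 < min δ r := by positivity
    simp only [hRdef]; linarith
  set η := min (ε / 32) (1 / 8) with hηdef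
  have hη : 0 < η := by positivity
  have hη1 : 6 * η < ε / 4 := by
    have : η ≤ ε / 32 := min_le_left _ _
    linarith
  have hη2 : Real.exp (3 * η) ≤ 4 := by
    have h1 : η ≤ 1 / 8 := min_le_right _ _
    calc Real.exp (3 * η) ≤ Real.exp 1 := Real.exp_le_exp.2 (by linarith)
      _ ≤ 4 := by have := Real.exp_one_lt_d9; linarith
  have hsq2 : ∀ z, sq z₀ z ≤ R ^ 2 * Real.exp (3 * η) → dist z z₀ ≤ 2 * R := by
    intro z hz
    have h1 : ‖z - z₀‖ ^ 2 ≤ (2 * R) ^ 2 := by
      calc ‖z - z₀‖ ^ 2 = sq z₀ z := rfl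
        _ ≤ R ^ 2 * Real.exp (3 * η) := hz
        _ ≤ R ^ 2 * 4 := by gcongr
        _ = (2 * R) ^ 2 := by ring
    rw [dist_eq_norm]
    exact le_of_sq_le_sq h1 (by positivity)
  set K : Set ℂ := Metric.closedBall z₀ (2 * R) with hK
  have hKB : K ⊆ B := Metric.closedBall_subset_ball hR2
  set k : ℂ → ℝ := fun z => H z₀ * kr z₀ R z with hk
  have hkpos : ∀ z, 0 < k z := fun z => mul_pos (hHpos z₀ hz0) (kr_pos hR z)
  set g : ℂ → ℝ := fun z => chi z₀ R η z * (Real.log (k z) - Real.log (H z)) with hg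
  have hgK : ∀ z, z ∉ K → g z = 0 := by
    intro z hz
    have : chi z₀ R η z = 0 := by
      by_contra h
      exact hz (Metric.mem_closedBall.2 (hsq2 z (chi_ne hR hη h).2.le))
    simp [hg, this]
  have hgsupp : tsupport g ⊆ K := by
    refine closure_minimal ?_ Metric.isClosed_closedBall
    intro z hz
    by_contra h
    exact hz (hgK z h)
  have hgsm : ∀ n : ℕ∞, ContDiffOn ℝ n H B → ContDiff ℝ n g := by
    intro n hn
    rw [contDiff_iff_contDiffAt]
    intro z
    by_cases hz : z ∈ B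
    · have hBn : B ∈ 𝓝 z := Metric.isOpen_ball.mem_nhds hz
      have h1 : ContDiffAt ℝ n H z := hn.contDiffAt hBn
      have h2 : ContDiffAt ℝ n (fun z => Real.log (H z)) z := h1.log (hHpos z hz).ne'
      have h3 : ContDiffAt ℝ n k z :=
        contDiffAt_const.mul ((kr_contDiff hR).contDiffAt.of_le (by exact_mod_cast le_top))
      have h4 : ContDiffAt ℝ n (fun z => Real.log (k z)) z := h3.log (hkpos z).ne'
      exact ((chi_contDiff z₀ R η).contDiffAt.of_le (by exact_mod_cast le_top)).mul (h4.sub h2)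
    · have hz' : z ∈ Kᶜ := fun h => hz (hKB h)
      have : g =ᶠ[𝓝 z] fun _ => 0 := by
        filter_upwards [Metric.isClosed_closedBall.isOpen_compl.mem_nhds hz'] with y hy
        exact hgK y hy
      exact contDiffAt_const.congr_of_eventuallyEq this
  have hgc : Continuous g := by
    have h := hgsm 0 (by simpa using (contDiffOn_zero (𝕜 := ℝ)).2 hHc)
    exact h.continuous
  have hlogk : ∀ z, Real.log (k z) = Real.log (H z₀) + Real.log (kr z₀ R z) := fun z =>
    Real.log_mul (hHpos z₀ hz0).ne' (kr_pos hR z).ne'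
  have hgb : ∀ z, |g z| ≤ ε / 2 := by
    intro z
    by_cases h : chi z₀ R η z = 0
    · simp [hg, h]; positivity
    · obtain ⟨h1, h2⟩ := chi_ne hR hη h
      have h3 := kr_log hR hη h1 h2
      have h4 : dist z z₀ ≤ 2 * R := hsq2 z h2.le
      have h5 := hδ' z (hKB (Metric.mem_closedBall.2 h4)) (by linarith)
      have h6 : |Real.log (k z) - Real.log (H z)| ≤ ε / 2 := by
        rw [hlogk]
        have : Real.log (H z₀) + Real.log (kr z₀ R z) - Real.log (H z) =
          Real.log (kr z₀ R z) - (Real.log (H z) - Real.log (H z₀)) := by ring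
        rw [this]
        refine (abs_sub _ _).trans ?_
        linarith
      simp only [hg]
      rw [abs_mul, abs_of_nonneg (chi_nonneg _ _ _ _)]
      calc chi z₀ R η z * |Real.log (k z) - Real.log (H z)| ≤ 1 * (ε / 2) := by
            gcongr
            exact chi_le_one _ _ _ _
        _ = ε / 2 := one_mul _
  -- the function on the surface
  classical
  set G : M → ℝ := fun x => if x ∈ D.U i then g (D.φ i x) else 0 with hG
  have hKc : IsCompact (D.ψ i '' K) :=
    (isCompact_closedBall z₀ (2 * R)).image_of_continuousOn ((hD.contψ i).mono (hKB.trans hBT))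
  have hUφ : ∀ x ∈ D.U i, D.ψ i (D.φ i x) = x := hD.left i
  have hGK : ∀ x, x ∉ D.ψ i '' K → G x = 0 := by
    intro x hx
    simp only [hG]
    split_ifs with hU
    · refine hgK _ fun h => hx ⟨D.φ i x, h, hUφ x hU⟩
    · rfl
  have hGc : Continuous G := by
    rw [continuous_iff_continuousAt]
    intro x
    by_cases hx : x ∈ D.U i
    · have hn : D.U i ∈ 𝓝 x := (hD.openU i).mem_nhds hx
      have h1 : ContinuousAt (fun x => g (D.φ i x)) x :=
        hgc.continuousAt.comp ((hD.contφ i).continuousAt hn)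
      refine h1.congr ?_
      filter_upwards [hn] with y hy
      simp [hG, hy]
    · have hx' : x ∈ (D.ψ i '' K)ᶜ := by
        rintro ⟨z, hz, rfl⟩
        apply hx
        obtain ⟨y, hy, rfl⟩ := (hKB.trans hBT) hz
        rw [hUφ y hy]; exact hy
      have : G =ᶠ[𝓝 x] fun _ => 0 := by
        filter_upwards [hKc.isClosed.isOpen_compl.mem_nhds hx'] with y hy
        exact hGK y hy
      exact continuousAt_const.congr this.symm
  have hψT : ∀ z ∈ D.T i, D.ψ i z ∈ D.U i ∧ D.φ i (D.ψ i z) = z := by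
    rintro z ⟨x, hx, rfl⟩
    rw [hUφ x hx]
    exact ⟨hx, rfl⟩
  have hGT : ∀ z ∈ D.T i, G (D.ψ i z) = g z := by
    intro z hz
    obtain ⟨h1, h2⟩ := hψT z hz
    simp only [hG, if_pos h1, h2]
  refine ⟨⟨fun x => φ x + G x, φ.continuous.add hGc⟩, g, ?_, ?_, hgsupp.trans hKB, ?_, ?_, ?_⟩
  · refine ⟨i, z₀, R, η, H z₀ * R ^ 2, hR, hη, mul_pos (hHpos z₀ hz0) (by positivity), ?_⟩
    intro z h1 h2
    have hzK : z ∈ K := by
      refine Metric.mem_closedBall.2 (hsq2 z ?_)
      have : sq z₀ z ≤ (R * Real.exp η) ^ 2 := pow_le_pow_left₀ (norm_nonneg _) h2 2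
      refine this.trans ?_
      rw [mul_pow, ← Real.exp_nat_mul]
      gcongr
      push_cast
      linarith
    have hzB : z ∈ B := hKB hzK
    refine ⟨hBT hzB, fun v => ?_⟩
    have e1 : chi z₀ R η z = 1 := chi_one hR hη h1 h2
    show Real.exp (φ (D.ψ i z) + G (D.ψ i z)) * ‖D.A i z v‖ ^ 2 = _
    rw [hGT z (hBT hzB), (hiso z hzB).2 v]
    simp only [hg, e1, one_mul]
    rw [Real.exp_add, Real.exp_sub, Real.exp_log (hkpos z), Real.exp_log (hHpos z hzB)]
    have hH0 : H z ≠ 0 := (hHpos z hzB).ne'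
    have e2 : Real.exp (φ (D.ψ i z)) * (k z / H z) * (‖D.A i z 1‖ * ‖v‖) ^ 2 = k z * ‖v‖ ^ 2 := by
      have : Real.exp (φ (D.ψ i z)) * (k z / H z) * (‖D.A i z 1‖ * ‖v‖) ^ 2 =
          k z * ‖v‖ ^ 2 * ((Real.exp (φ (D.ψ i z)) * ‖D.A i z 1‖ ^ 2) / H z) := by ring
      rw [this]
      have h3 : (Real.exp (φ (D.ψ i z)) * ‖D.A i z 1‖ ^ 2) / H z = 1 := div_self hH0
      rw [h3, mul_one]
    rw [e2]
    simp only [hk, kr, sq]
    have hp : R ^ 2 + ‖z - z₀‖ ^ 2 ≠ 0 := by positivity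
    field_simp
  · rw [ContinuousMap.dist_lt_iff hε]
    intro x
    show dist (φ x + G x) (φ x) < ε
    rw [Real.dist_eq]
    have : φ x + G x - φ x = G x := by ring
    rw [this]
    simp only [hG]
    split_ifs
    · exact (hgb _).trans_lt (by linarith)
    · simpa using hε
  · intro x hx
    show φ x + G x = φ x
    simp [hG, hx]
  · intro z hz
    show φ (D.ψ i z) + G (D.ψ i z) = _
    rw [hGT z hz]
  · intro h
    exact hgsm ⊤ h

end Pool.Agent.L7h46.SB
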