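import Pool.Agent.L7h46.SB.Col
import Pool.Agent.L7h70.SB.Stm4
import Pool.Agent.L7h70.SB.Tr

/-!
# Project SB: round bands are dense in the `C¹` topology (`S_DEN1`)
-/

set_option autoImplicit false

open Set Filter Topology MeasureTheory
open scoped Real ContDiff
open Pool.Agent.Y262.QE Pool.Agent.Y264.QR

noncomputable section

namespace Pool.Agent.L7h46.SB

open Pool.Agent.L7h70.SB

/-! ### The plane -/

lemma cut_zero {k : ℝ} (hk : 0 < k) {z : ℂ} (hz : ¬ sn z ^ 2 ≤ 2 * k ^ 2) : cut k z = 0 := by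
  apply bm_zero
  have : 2 * k ^ 2 < sn z ^ 2 := not_le.1 hz
  rw [mul_pow, inv_pow]
  rw [← div_eq_inv_mul, le_div_iff₀ (by positivity)]
  exact this.le

lemma S_sub {η k : ℝ} (hη : 0 < η) (hk : 0 < k) (hkη : 2 * k ≤ 1 - Real.exp (-η)) {z : ℂ}
    (hz : sn z ^ 2 ≤ 2 * k ^ 2) : |‖z‖ - 1| ≤ 2 * k ∧ z ∈ Kom η := by
  have hc0 : 0 < 1 - Real.exp (-η) := by
    have : Real.exp (-η) < 1 := by rw [← Real.exp_zero]; exact Real.exp_lt_exp.2 (by linarith)
    linarith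
  have h1 : |sn z| ≤ 2 * k := by
    refine abs_le_of_sq_le_sq ?_ (by positivity)
    nlinarith
  have h0 : 0 ≤ ‖z‖ := norm_nonneg z
  have h2 : sn z = (‖z‖ - 1) * (‖z‖ + 1) := by unfold sn; ring
  refine ⟨?_, ?_⟩
  · rw [h2, abs_mul, abs_of_nonneg (by positivity : 0 ≤ ‖z‖ + 1)] at h1
    have := abs_nonneg (‖z‖ - 1)
    nlinarith
  · obtain ⟨h3, h4⟩ := abs_le.1 h1
    unfold sn at h3 h4
    have e1 : Real.exp (-η) = Real.exp (-(η / 2)) ^ 2 := by
      rw [← Real.exp_nat_mul]; congr 1; push_cast; ring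
    have e2 : Real.exp (η / 2) ^ 2 * Real.exp (-η) = 1 := by
      rw [← Real.exp_nat_mul, ← Real.exp_add]
      have : ((2 : ℕ) : ℝ) * (η / 2) + -η = 0 := by push_cast; ring
      rw [this, Real.exp_zero]
    have hp2 := Real.exp_pos (η / 2)
    have hp3 := Real.exp_pos (-η)
    constructor
    · refine le_of_sq_le_sq ?_ h0
      rw [← e1]
      linarith
    · refine le_of_sq_le_sq ?_ hp2.le
      have h5 : ‖z‖ ^ 2 ≤ 2 - Real.exp (-η) := by linarith
      have h6 : 2 - Real.exp (-η) ≤ Real.exp (η / 2) ^ 2 := by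
        have : (Real.exp (η / 2) ^ 2 - 1) * (1 - Real.exp (-η)) ≥ 0 := by
          refine mul_nonneg ?_ hc0.le
          have : 1 ≤ Real.exp (η / 2) ^ 2 := one_le_pow₀ (Real.one_le_exp (by positivity))
          linarith
        nlinarith
      linarith

lemma cut_one {κ k : ℝ} (hκ : 0 < κ) (hk : 0 < k) (hκ1 : Real.exp (2 * κ) ≤ 1 + k) {z : ℂ}
    (h1 : Real.exp (-κ) ≤ ‖z‖) (h2 : ‖z‖ ≤ Real.exp κ) : cut k z = 1 := by
  have h3 : ‖z‖ ^ 2 ≤ 1 + k := by
    calc ‖z‖ ^ 2 ≤ Real.exp κ ^ 2 := by gcongr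
      _ = Real.exp (2 * κ) := by rw [← Real.exp_nat_mul]; push_cast; ring_nf
      _ ≤ 1 + k := hκ1
  have h4 : 1 - k ≤ ‖z‖ ^ 2 := by
    have e1 : Real.exp (-κ) ^ 2 * Real.exp (2 * κ) = 1 := by
      rw [← Real.exp_nat_mul, ← Real.exp_add]
      have : ((2 : ℕ) : ℝ) * -κ + 2 * κ = 0 := by push_cast; ring
      rw [this, Real.exp_zero]
    have e2 : 0 < Real.exp (-κ) ^ 2 := by positivity
    have e3 : Real.exp (-κ) ^ 2 ≤ ‖z‖ ^ 2 := by gcongr
    have e4 : 1 ≤ Real.exp (-κ) ^ 2 * (1 + k) :=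
      e1.symm.le.trans (mul_le_mul_of_nonneg_left hκ1 e2.le)
    have e5 : 1 - k ≤ Real.exp (-κ) ^ 2 := by
      have : Real.exp (-κ) ^ 2 ≤ 1 := by
        have : Real.exp (-κ) ≤ 1 := Real.exp_le_one_iff.2 (by linarith)
        exact pow_le_one₀ (Real.exp_pos _).le this
      nlinarith
    linarith
  apply bm_one
  rw [abs_mul, abs_of_pos (inv_pos.2 hk), ← div_eq_inv_mul, div_le_one hk, abs_le]
  unfold sn
  constructor <;> linarith

lemma Kom_ne {η : ℝ} {z : ℂ} (hz : z ∈ Kom η) : z ≠ 0 := by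
  rintro rfl
  have := hz.1
  simp at this
  exact absurd this (not_le.2 (Real.exp_pos _))

lemma unit_Kom {η : ℝ} (hη : 0 < η) {z : ℂ} (hz : ‖z‖ = 1) : z ∈ Kom η := by
  constructor
  · rw [hz]; exact Real.exp_le_one_iff.2 (by linarith)
  · rw [hz]; exact Real.one_le_exp (by linarith)

/-- the cutoff in `C¹` -/
theorem cop1 {η : ℝ} (hη : 0 < η) {u : ℂ → ℝ} (hu : ContDiffOn ℝ 1 u (Ann η))
    (hc : ∀ z : ℂ, ‖z‖ = 1 → u z = 0 ∧ fderiv ℝ u z = 0) {ε : ℝ} (hε : 0 < ε) :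
    ∃ (g : ℂ → ℝ) (κ : ℝ), 0 < κ ∧ κ < η ∧ ContDiff ℝ 1 g ∧ (∀ z, z ∉ Kom η → g z = 0) ∧
      (∀ z : ℂ, Real.exp (-κ) ≤ ‖z‖ → ‖z‖ ≤ Real.exp κ → g z = u z) ∧
      (∀ z, |g z| ≤ ε) ∧ (∀ z, ‖fderiv ℝ g z‖ ≤ ε) ∧ ∀ z : ℂ, ‖z‖ = 1 → fderiv ℝ g z = 0 := by
  have hd0 : ∀ y ∈ Ann η, HasFDerivAt u (fderiv ℝ u y) y := fun y hy =>
    ((hu.contDiffAt ((isOpen_Ann η).mem_nhds hy)).differentiableAt (by simp)).hasFDerivAt
  have hu1 : ContinuousOn (fun z => ‖fderiv ℝ u z‖) (Kom η) :=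
    ((hu.continuousOn_fderiv_of_isOpen (isOpen_Ann η) le_rfl).mono (Kom_sub hη)).norm
  obtain ⟨C2, hC20, hC2, -⟩ := bm_bounds
  have hs1 : Continuous (fderiv ℝ sn) := (sn_contDiff.fderiv_right (m := ∞) (by simp)).continuous
  obtain ⟨C1, hC1⟩ := exists_bound (F := ℂ →L[ℝ] ℝ) (isCompact_Kom η) hs1.continuousOn
  have hC10 : 0 ≤ C1 := le_trans (norm_nonneg (fderiv ℝ sn 1)) (hC1 1 (unit_Kom hη norm_one))
  set ρ : ℝ := ε / (2 + 2 * (C2 * C1)) with hρ
  have hρ0 : 0 < ρ := by positivity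
  have hρε : ρ * (2 + 2 * (C2 * C1)) = ε := div_mul_cancel₀ _ (by positivity)
  have hCC : 0 ≤ C2 * C1 := by positivity
  obtain ⟨δ, hδ, hδ'⟩ := Metric.uniformContinuousOn_iff.1
    ((isCompact_Kom η).uniformContinuousOn_of_continuous hu1) ρ hρ0
  have hun : ∀ z ∈ Kom η, ‖(‖z‖⁻¹ : ℝ) • z‖ = 1 := by
    intro z hz
    rw [norm_smul, norm_inv, norm_norm]
    exact inv_mul_cancel₀ (norm_ne_zero_iff.2 (Kom_ne hz))
  have hdu : ∀ z ∈ Kom η, |‖z‖ - 1| < δ → ‖fderiv ℝ u z‖ ≤ ρ := by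
    intro z hz hzd
    have h1 := hδ' z hz ((‖z‖⁻¹ : ℝ) • z) (unit_Kom hη (hun z hz))
      (by rw [dist_eq_norm, norm_seg (Kom_ne hz)]; exact hzd)
    rw [(hc _ (hun z hz)).2, norm_zero, Real.dist_eq, sub_zero, abs_of_nonneg (norm_nonneg _)] at h1
    exact h1.le
  have hub : ∀ z ∈ Kom η, |‖z‖ - 1| < δ → |u z| ≤ ρ * |‖z‖ - 1| := by
    intro z hz hzd
    have h := (convex_segment (𝕜 := ℝ) ((‖z‖⁻¹ : ℝ) • z) z).norm_image_sub_le_of_norm_hasFDerivWithin_le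
      (f := u) (f' := fderiv ℝ u) (C := ρ)
      (fun y hy => (hd0 y (Kom_sub hη (seg_Kom hη hz hy).1)).hasFDerivWithinAt)
      (fun y hy => hdu y (seg_Kom hη hz hy).1 ((seg_Kom hη hz hy).2.trans_lt hzd))
      (left_mem_segment ℝ _ _) (right_mem_segment ℝ _ _)
    rw [(hc _ (hun z hz)).1, sub_zero, norm_seg (Kom_ne hz), Real.norm_eq_abs] at h
    exact h
  have hc0 : 0 < 1 - Real.exp (-η) := by
    have : Real.exp (-η) < 1 := by rw [← Real.exp_zero]; exact Real.exp_lt_exp.2 (by linarith)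
    linarith
  set k : ℝ := min (min 1 (δ / 4)) ((1 - Real.exp (-η)) / 2) with hkdef
  have hk : 0 < k := by positivity
  have hk1 : k ≤ 1 := (min_le_left _ _).trans (min_le_left _ _)
  have hkδ : 2 * k < δ := by
    have : k ≤ δ / 4 := (min_le_left _ _).trans (min_le_right _ _)
    linarith
  have hkη : 2 * k ≤ 1 - Real.exp (-η) := by
    have : k ≤ (1 - Real.exp (-η)) / 2 := min_le_right _ _
    linarith
  set g : ℂ → ℝ := fun z => cut k z * u z with hg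
  set S : Set ℂ := {z | sn z ^ 2 ≤ 2 * k ^ 2} with hS
  have hSc : IsClosed S := isClosed_le (sn_contDiff.continuous.pow 2) continuous_const
  have hSk : ∀ z ∈ S, |‖z‖ - 1| ≤ 2 * k ∧ z ∈ Kom η := fun z hz => S_sub hη hk hkη hz
  have hg0 : ∀ z, z ∉ S → g =ᶠ[𝓝 z] fun _ => 0 := by
    intro z hz
    filter_upwards [hSc.isOpen_compl.mem_nhds hz] with y hy
    simp only [hg]
    rw [cut_zero hk hy, zero_mul]
  have hSA : S ⊆ Ann η := fun z hz => Kom_sub hη (hSk z hz).2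
  have hgsm : ContDiff ℝ 1 g := by
    rw [contDiff_iff_contDiffAt]
    intro z
    by_cases hz : z ∈ S
    · exact ((cut_contDiff k).contDiffAt.of_le (by simp)).mul
        (hu.contDiffAt ((isOpen_Ann η).mem_nhds (hSA hz)))
    · exact contDiffAt_const.congr_of_eventuallyEq (hg0 z hz)
  have hgd : ∀ y ∈ Ann η, fderiv ℝ g y = cut k y • fderiv ℝ u y + u y • fderiv ℝ (cut k) y := by
    intro y hy
    have h1 : HasFDerivAt (cut k) (fderiv ℝ (cut k) y) y :=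
      ((cut_contDiff k).differentiable (by simp) y).hasFDerivAt
    exact (h1.mul (hd0 y hy)).fderiv
  have hcb1 : ∀ z ∈ S, ‖fderiv ℝ (cut k) z‖ ≤ k⁻¹ * (C2 * C1) := by
    intro z hz
    rw [(cut_fderiv k z).fderiv, norm_smul, Real.norm_eq_abs, abs_mul, abs_of_pos (inv_pos.2 hk), mul_assoc]
    have := hC2 (k⁻¹ * sn z)
    have := hC1 z (hSk z hz).2
    gcongr
  have hSu : ∀ z ∈ S, |u z| ≤ ρ * (2 * k) ∧ ‖fderiv ℝ u z‖ ≤ ρ := by
    intro z hz
    obtain ⟨h1, h2⟩ := hSk z hz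
    refine ⟨(hub z h2 (h1.trans_lt hkδ)).trans ?_, hdu z h2 (h1.trans_lt hkδ)⟩
    gcongr
  have hkk : k * k⁻¹ = 1 := mul_inv_cancel₀ hk.ne'
  obtain ⟨κ, hκ, hκη, hκ1⟩ : ∃ κ : ℝ, 0 < κ ∧ κ < η ∧ Real.exp (2 * κ) ≤ 1 + k := by
    have hl : 0 < Real.log (1 + k) := Real.log_pos (by linarith)
    refine ⟨min (η / 2) (Real.log (1 + k) / 2), by positivity, ?_, ?_⟩
    · exact (min_le_left _ _).trans_lt (by linarith)
    · have h1 : 2 * min (η / 2) (Real.log (1 + k) / 2) ≤ Real.log (1 + k) := by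
        have := min_le_right (η / 2) (Real.log (1 + k) / 2)
        linarith
      calc Real.exp (2 * min (η / 2) (Real.log (1 + k) / 2)) ≤ Real.exp (Real.log (1 + k)) :=
            Real.exp_le_exp.2 h1
        _ = 1 + k := Real.exp_log (by linarith)
  refine ⟨g, κ, hκ, hκη, hgsm, ?_, ?_, ?_, ?_, ?_⟩
  · intro z hz
    exact (hg0 z fun h => hz (hSk z h).2).eq_of_nhds
  · intro z h1 h2
    simp only [hg]
    rw [cut_one hκ hk hκ1 h1 h2, one_mul]
  · intro z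
    by_cases hz : z ∈ S
    · simp only [hg]
      rw [abs_mul, abs_of_nonneg (show 0 ≤ cut k z from bm_nonneg _)]
      calc cut k z * |u z| ≤ 1 * (ρ * (2 * k)) := by
            gcongr
            · exact bm_le_one _
            · exact (hSu z hz).1
        _ ≤ ε := by
            rw [← hρε]
            nlinarith [mul_nonneg hρ0.le hCC]
    · rw [(hg0 z hz).eq_of_nhds]
      simpa using hε.le
  · intro z
    by_cases hz : z ∈ S
    · rw [hgd z (hSA hz)]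
      obtain ⟨a1, a2⟩ := hSu z hz
      have a4 := hcb1 z hz
      calc ‖cut k z • fderiv ℝ u z + u z • fderiv ℝ (cut k) z‖
          ≤ ‖cut k z • fderiv ℝ u z‖ + ‖u z • fderiv ℝ (cut k) z‖ := norm_add_le _ _
        _ ≤ 1 * ρ + (ρ * (2 * k)) * (k⁻¹ * (C2 * C1)) := by
            rw [norm_smul, norm_smul, Real.norm_eq_abs, Real.norm_eq_abs,
              abs_of_nonneg (show 0 ≤ cut k z from bm_nonneg _)]
            gcongr
            exact bm_le_one _
        _ = ρ + ρ * 2 * (k * k⁻¹) * (C2 * C1) := by ring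
        _ ≤ ε := by
            rw [hkk, ← hρε]
            nlinarith [mul_nonneg hρ0.le hCC]
    · rw [(hg0 z hz).fderiv_eq]
      simpa using hε.le
  · intro z hz
    have hzA : z ∈ Ann η := Kom_sub hη (unit_Kom hη hz)
    rw [hgd z hzA, (hc z hz).1, (hc z hz).2, smul_zero, zero_smul, add_zero]

/-- a `C¹` function whose differential vanishes on the unit circle is constant there -/
lemma const_circ {O : Set ℂ} (hO : IsOpen O) (h1 : ∀ z : ℂ, ‖z‖ = 1 → z ∈ O) {p : ℂ → ℝ}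
    (hp : ContDiffOn ℝ 1 p O) (hc : ∀ z : ℂ, ‖z‖ = 1 → fderiv ℝ p z = 0) :
    ∀ z : ℂ, ‖z‖ = 1 → p z = p 1 := by
  have hd : ∀ θ : ℝ, HasDerivAt (fun θ : ℝ => p (Complex.exp (θ * Complex.I))) 0 θ := by
    intro θ
    have hn : ‖Complex.exp (θ * Complex.I)‖ = 1 := Complex.norm_exp_ofReal_mul_I θ
    have h2 : HasFDerivAt p (0 : ℂ →L[ℝ] ℝ) (Complex.exp (θ * Complex.I)) := by
      have := ((hp.contDiffAt (hO.mem_nhds (h1 _ hn))).differentiableAt (by simp)).hasFDerivAt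
      rwa [hc _ hn] at this
    have h3 : HasDerivAt (fun θ : ℝ => Complex.exp (θ * Complex.I))
        (Complex.exp (θ * Complex.I) * (1 * Complex.I)) θ := by
      have h4 : HasDerivAt (fun x : ℝ => (x : ℂ) * Complex.I) (1 * Complex.I) θ :=
        (Complex.ofRealCLM.hasDerivAt (x := θ)).mul_const Complex.I
      exact h4.cexp
    have h5 : HasDerivAt (fun θ : ℝ => p (Complex.exp (θ * Complex.I)))
        ((0 : ℂ →L[ℝ] ℝ) (Complex.exp (θ * Complex.I) * (1 * Complex.I))) θ :=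
      HasFDerivAt.comp_hasDerivAt θ h2 h3
    exact h5
  have hconst : ∀ x y : ℝ, (fun θ : ℝ => p (Complex.exp (θ * Complex.I))) x =
      (fun θ : ℝ => p (Complex.exp (θ * Complex.I))) y :=
    is_const_of_deriv_eq_zero (fun x => (hd x).differentiableAt) fun x => (hd x).deriv
  intro z hz
  have h6 := hconst (Complex.arg z) 0
  simp only [Complex.ofReal_zero, zero_mul, Complex.exp_zero] at h6
  have h7 : Complex.exp (Complex.arg z * Complex.I) = z := by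
    have := Complex.norm_mul_exp_arg_mul_I z
    rwa [hz, Complex.ofReal_one, one_mul] at this
  rw [h7] at h6
  exact h6

section

variable {M : Type} [MetricSpace M] [CompactSpace M] [MeasurableSpace M] [BorelSpace M]
  {μ : Measure M} {D : Data M}

omit [CompactSpace M] [BorelSpace M] in
theorem ext_C1' (hD : D.IsSurf μ) (i : Fin D.N) {K : Set ℂ} (hK : IsCompact K) (hKT : K ⊆ D.T i)
    {g : ℂ → ℝ} (hg : ∀ z, z ∉ K → g z = 0) (hgc : ContDiff ℝ 1 g) : D.C1 (ext D i g) := by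
  intro j z hz
  apply ContDiffAt.contDiffWithinAt
  have hzT := hz
  obtain ⟨x, hxj, rfl⟩ := hz
  have hψ : ContinuousAt (D.ψ j) (D.φ j x) := (hD.contψ j).continuousAt ((hD.openT j).mem_nhds hzT)
  have hψx : D.ψ j (D.φ j x) = x := hD.left j x hxj
  have hψt : Tendsto (D.ψ j) (𝓝 (D.φ j x)) (𝓝 x) := by
    have := hψ.tendsto
    rwa [hψx] at this
  by_cases hx : x ∈ D.U i
  · have h1 : ∀ᶠ y in 𝓝 x, ext D i g y = g (D.φ i y) := by
      filter_upwards [(hD.openU i).mem_nhds hx] with y hy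
      exact if_pos hy
    have h2 : (fun z => ext D i g (D.ψ j z)) =ᶠ[𝓝 (D.φ j x)] fun z => g (D.φ i (D.ψ j z)) :=
      hψt.eventually h1
    refine ContDiffAt.congr_of_eventuallyEq ?_ h2
    exact hgc.contDiffAt.comp (D.φ j x) (hD.tr j i x hxj hx).1
  · have h1 := hψt.eventually (ext_near hD i hK hKT hg hx)
    exact ContDiffAt.congr_of_eventuallyEq (contDiffAt_const (c := (0 : ℝ))) h1

omit [CompactSpace M] [BorelSpace M] in
/-- the gradient of the extension -/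
theorem gc_ext (hD : D.IsSurf μ) (i : Fin D.N) {g : ℂ → ℝ} {x : M} (hx : x ∈ D.U i) :
    D.gc i (ext D i g) x = grd (D.A i (D.φ i x)) (fderiv ℝ g (D.φ i x)) := by
  have hz : D.φ i x ∈ D.T i := ⟨x, hx, rfl⟩
  have h3 : (fun z => ext D i g (D.ψ i z)) =ᶠ[𝓝 (D.φ i x)] g := by
    filter_upwards [(hD.openT i).mem_nhds hz] with y hy
    obtain ⟨x', hx', rfl⟩ := hy
    unfold Pool.Agent.L7h70.SB.ext
    rw [hD.left i x' hx', if_pos hx']
  unfold Data.gc Data.dc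
  rw [h3.fderiv_eq]

end

/-- the gradient in an isothermal frame -/
lemma grd_le {A : ℂ →L[ℝ] ℂ} (hA : A.det ≠ 0) {c : ℝ} (hc : 0 < c) (h : ∀ v, ‖A v‖ = c * ‖v‖)
    (P : ℂ →L[ℝ] ℝ) : ‖grd A P‖ ≤ 2 * c⁻¹ * ‖P‖ := by
  have hB : ∀ v, ‖A.inverse v‖ = c⁻¹ * ‖v‖ := by
    intro v
    have h1 := h (A.inverse v)
    rw [Pool.Agent.Y708.QE.inv_apply hA] at h1
    rw [h1, inv_mul_cancel_left₀ hc.ne']
  refine (Complex.norm_le_abs_re_add_abs_im _).trans ?_
  have h1 : |(grd A P).re| ≤ c⁻¹ * ‖P‖ := by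
    show |P (A.inverse 1)| ≤ _
    have := P.le_opNorm (A.inverse 1)
    rw [hB, Real.norm_eq_abs, norm_one, mul_one] at this
    linarith
  have h2 : |(grd A P).im| ≤ c⁻¹ * ‖P‖ := by
    show |P (A.inverse Complex.I)| ≤ _
    have := P.le_opNorm (A.inverse Complex.I)
    rw [hB, Real.norm_eq_abs, Complex.norm_I, mul_one] at this
    linarith
  linarith

theorem s_DEN1 : S_DEN1 := by
  intro M _ _ _ _ μ D hD i a η w hC φ hφ hφc ε hε
  obtain ⟨ha, hη, hann, hsm, hcirc⟩ := hC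
  change ContDiffOn ℝ ∞ w (Ann η) at hsm
  have hAT : Ann η ⊆ D.T i := fun z hz => (hann z hz.1.le hz.2.le).1
  have hKT : Kom η ⊆ D.T i := (Kom_sub hη).trans hAT
  have hφψ : ∀ z ∈ D.T i, D.ψ i z ∈ D.U i ∧ D.φ i (D.ψ i z) = z := by
    rintro z ⟨x, hx, rfl⟩
    rw [hD.left i x hx]
    exact ⟨hx, rfl⟩
  set p : ℂ → ℝ := fun z => φ (D.ψ i z) with hp
  have hp1 : ContDiffOn ℝ 1 p (D.T i) := hφ i
  have hpc : ∀ z : ℂ, ‖z‖ = 1 → p z = p 1 :=
    const_circ (hD.openT i) (fun z hz => hKT (unit_Kom hη hz)) hp1 hφc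
  set u : ℂ → ℝ := fun z => uc a w z + (p 1 - p z) with hu
  have hu1 : ContDiffOn ℝ 1 u (Ann η) :=
    ((uc_contDiffOn hsm).of_le (by simp)).add (contDiffOn_const.sub (hp1.mono hAT))
  have hucc := uc_circ hη ha hsm hcirc
  have huc : ∀ z : ℂ, ‖z‖ = 1 → u z = 0 ∧ fderiv ℝ u z = 0 := by
    intro z hz
    have hzA : z ∈ Ann η := Kom_sub hη (unit_Kom hη hz)
    constructor
    · simp only [hu]
      rw [(hucc z hz).1, hpc z hz]
      ring
    · have h1 : HasFDerivAt (uc a w) (0 : ℂ →L[ℝ] ℝ) z := by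
        have := (((uc_contDiffOn (a := a) hsm).contDiffAt
          ((isOpen_Ann η).mem_nhds hzA)).differentiableAt (by simp)).hasFDerivAt
        rwa [(hucc z hz).2] at this
      have h2 : HasFDerivAt p (0 : ℂ →L[ℝ] ℝ) z := by
        have := ((hp1.contDiffAt ((hD.openT i).mem_nhds (hAT hzA))).differentiableAt
          (by simp)).hasFDerivAt
        rwa [hφc z hz] at this
      have h3 : HasFDerivAt u ((0 : ℂ →L[ℝ] ℝ) + (-(0 : ℂ →L[ℝ] ℝ))) z := h1.add (h2.const_sub (p 1))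
      rw [h3.fderiv]
      simp
  -- the bound for the frames
  obtain ⟨B, hB⟩ := exists_bound (F := ℝ) (isCompact_Kom η) (hsm.continuousOn.mono (Kom_sub hη))
  set C₀ : ℝ := 2 * (Real.exp (η / 2) * Real.exp B) with hC₀
  have hC₀0 : 0 < C₀ := by positivity
  have hgrd : ∀ z ∈ Kom η, ∀ P : ℂ →L[ℝ] ℝ, ‖grd (D.A i z) P‖ ≤ C₀ * ‖P‖ := by
    intro z hz P
    have hz0 : 0 < ‖z‖ := norm_pos_iff.2 (Kom_ne hz)
    have hzA := Kom_sub hη hz
    have h1 := (hann z hzA.1.le hzA.2.le).2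
    refine (grd_le (hD.det i z (hKT hz)) (by positivity) h1 P).trans ?_
    refine mul_le_mul_of_nonneg_right ?_ (norm_nonneg P)
    rw [hC₀]
    have h2 : (Real.exp (w z) / ‖z‖)⁻¹ = ‖z‖ * Real.exp (-w z) := by
      rw [inv_div, Real.exp_neg]; rfl
    rw [h2]
    have h3 : -w z ≤ B := by
      have := hB z hz
      rw [Real.norm_eq_abs] at this
      linarith [neg_abs_le (w z)]
    have h4 := hz.2
    gcongr
  set ε' : ℝ := ε / (C₀ + 2) with hε'
  have hε'0 : 0 < ε' := by positivity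
  have hεε : ε' * (C₀ + 2) = ε := div_mul_cancel₀ _ (by positivity)
  obtain ⟨g, κ, hκ, hκη, hg, hgK, hgu, hg0, hg1, hgc⟩ := cop1 hη hu1 huc hε'0
  have hE1 : D.C1 (ext D i g) := ext_C1' hD i (isCompact_Kom η) hKT hgK hg
  have hEc : Continuous (ext D i g) :=
    ext_cont hD i (isCompact_Kom η) hKT hgK hg.continuous.continuousOn
  have hEψ : ∀ z ∈ D.T i, ext D i g (D.ψ i z) = g z := by
    intro z hz
    obtain ⟨h1, h2⟩ := hφψ z hz
    unfold Pool.Agent.L7h70.SB.ext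
    rw [if_pos h1, h2]
  obtain ⟨-, hgr2, hgr3⟩ := Pool.Agent.Y708.QE.gradient M μ D hD
  obtain ⟨hsum, hgsum⟩ := hgr3 _ _ hφ hE1 1 1
  have hfun : (fun x => 1 * φ x + 1 * ext D i g x) = fun x => φ x + ext D i g x := by
    funext x; ring
  rw [hfun] at hsum hgsum
  refine ⟨⟨fun x => φ x + ext D i g x, φ.continuous.add hEc⟩, hsum, ?_, ?_, ?_, ?_⟩
  · intro z hz
    have hzT : z ∈ D.T i := hKT (unit_Kom hη hz)
    have h1 : (fun y => φ (D.ψ i y) + ext D i g (D.ψ i y)) =ᶠ[𝓝 z] fun y => p y + g y := by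
      filter_upwards [(hD.openT i).mem_nhds hzT] with y hy
      rw [hEψ y hy]
    show fderiv ℝ (fun y => φ (D.ψ i y) + ext D i g (D.ψ i y)) z = 0
    rw [h1.fderiv_eq]
    have h2 : HasFDerivAt p (0 : ℂ →L[ℝ] ℝ) z := by
      have := ((hp1.contDiffAt ((hD.openT i).mem_nhds hzT)).differentiableAt (by simp)).hasFDerivAt
      rwa [hφc z hz] at this
    have h3 : HasFDerivAt g (0 : ℂ →L[ℝ] ℝ) z := by
      have := (hg.differentiable (by simp) z).hasFDerivAt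
      rwa [hgc z hz] at this
    have h4 : HasFDerivAt (fun y => p y + g y) ((0 : ℂ →L[ℝ] ℝ) + 0) z := h2.add h3
    rw [h4.fderiv, add_zero]
  · refine ⟨i, 0, 1, κ, a ^ 2 * Real.exp (p 1), one_pos, hκ, by positivity, ?_⟩
    intro z h1 h2
    rw [one_mul, sub_zero] at h1 h2
    have hz0 : z ≠ 0 := by
      rintro rfl
      rw [norm_zero] at h1
      exact absurd h1 (not_le.2 (Real.exp_pos _))
    have h1' : Real.exp (-η) ≤ ‖z‖ := (Real.exp_le_exp.2 (by linarith)).trans h1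
    have h2' : ‖z‖ ≤ Real.exp η := h2.trans (Real.exp_le_exp.2 hκη.le)
    obtain ⟨hT, hA⟩ := hann z h1' h2'
    refine ⟨hT, fun v => ?_⟩
    show Real.exp (φ (D.ψ i z) + ext D i g (D.ψ i z)) * ‖D.A i z v‖ ^ 2 = _
    rw [hEψ z hT, hgu z h1 h2, hA v, sub_zero]
    have e6 : φ (D.ψ i z) + u z = p 1 + uc a w z := by
      simp only [hu, hp]; ring
    rw [e6, Real.exp_add, uc_exp ha w hz0]
    have hz' : 0 < ‖z‖ := norm_pos_iff.2 hz0
    have hw0 : Real.exp (w z) ≠ 0 := (Real.exp_pos _).ne'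
    have e5 : Real.exp (p 1) * ((2 * a) ^ 2 * ‖z‖ ^ 2 / (1 + ‖z‖ ^ 2) ^ 2 / Real.exp (w z) ^ 2) *
        (Real.exp (w z) / ‖z‖ * ‖v‖) ^ 2 = Real.exp (p 1) * ((2 * a) ^ 2 / (1 + ‖z‖ ^ 2) ^ 2) * ‖v‖ ^ 2 *
        ((‖z‖ * ‖z‖⁻¹) ^ 2) * (Real.exp (w z) * (Real.exp (w z))⁻¹) ^ 2 := by ring
    rw [e5, mul_inv_cancel₀ hz'.ne', mul_inv_cancel₀ hw0, div_pow]
    ring
  · rw [ContinuousMap.dist_lt_iff hε]
    intro x
    show dist (φ x + ext D i g x) (φ x) < ε
    rw [Real.dist_eq]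
    have e7 : φ x + ext D i g x - φ x = ext D i g x := by ring
    rw [e7]
    unfold Pool.Agent.L7h70.SB.ext
    have h8 : ε' < ε := by nlinarith
    split_ifs
    · exact (hg0 _).trans_lt h8
    · simpa using hε
  · intro x
    show ‖D.gr (fun x => φ x + ext D i g x) x - D.gr φ x‖ < ε
    rw [hgsum x, one_smul, one_smul, add_sub_cancel_left]
    by_cases hx : x ∈ D.U i
    · have h1 : ‖D.gr (ext D i g) x‖ = ‖D.gc i (ext D i g) x‖ := by
        have := hgr2 _ _ hE1 hE1 i x hx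
        rw [real_inner_self_eq_norm_sq, real_inner_self_eq_norm_sq] at this
        exact (sq_eq_sq₀ (norm_nonneg _) (norm_nonneg _)).1 this
      rw [h1, gc_ext hD i hx]
      by_cases hz : D.φ i x ∈ Kom η
      · calc ‖grd (D.A i (D.φ i x)) (fderiv ℝ g (D.φ i x))‖ ≤ C₀ * ‖fderiv ℝ g (D.φ i x)‖ :=
              hgrd _ hz _
          _ ≤ C₀ * ε' := by
              have := hg1 (D.φ i x)
              gcongr
          _ < ε := by nlinarith
      · have h2 : g =ᶠ[𝓝 (D.φ i x)] fun _ => 0 := by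
          filter_upwards [(isCompact_Kom η).isClosed.isOpen_compl.mem_nhds hz] with y hy
          exact hgK y hy
        have h3 : fderiv ℝ g (D.φ i x) = 0 := by
          rw [h2.fderiv_eq]; simp
        rw [h3]
        have h4 : grd (D.A i (D.φ i x)) (0 : ℂ →L[ℝ] ℝ) = 0 := by
          unfold grd
          simp
          rfl
        rw [h4, norm_zero]
        exact hε
    · rw [gr_zero hD (ext_near hD i (isCompact_Kom η) hKT hgK hx), norm_zero]
      exact hε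

end Pool.Agent.L7h46.SB
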