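import Pool.Agent.L7h70.SB.Stm0

/-!
# Project SB: the quasimodes on the sphere (`S_PL`)
-/

set_option autoImplicit false

open Set Filter Topology MeasureTheory
open scoped Real ContDiff

noncomputable section

namespace Pool.Agent.L7h46.SB

open Pool.Agent.L7h70.SB

theorem s_PL (hONE : S_ONE) (hPOL : S_POL) : S_PL := by
  intro η hη
  obtain ⟨γ, θ, hγ, hγ1, hθ, hθ1, L, hL⟩ := hONE η hη
  obtain ⟨p1, p2⟩ := hPOL η hη
  refine ⟨γ, θ, hγ, hθ, hθ1, max L 1, fun l hl => ?_⟩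
  have hlL : L ≤ l := (le_max_left _ _).trans hl
  have hl1 : 1 ≤ l := (le_max_right _ _).trans hl
  have hl1' : (1 : ℝ) ≤ l := by exact_mod_cast hl1
  set m0 : ℕ := ⌈(1 - γ) * l⌉₊ with hm0
  have hpos : 0 < (1 - γ) * (l : ℝ) := mul_pos (by linarith) (by linarith)
  have hm01 : 1 ≤ m0 := Nat.one_le_ceil_iff.2 hpos
  have hm0l : m0 ≤ l := by
    rw [hm0, Nat.ceil_le]
    nlinarith
  have hm0r : (m0 : ℝ) < (1 - γ) * l + 1 := Nat.ceil_lt_add_one hpos.le
  have hm0r' : (1 - γ) * (l : ℝ) ≤ m0 := Nat.le_ceil _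
  have hF : ∀ k : Fin (l + 1 - m0), ∃ F : ℝ → ℝ, ContDiff ℝ ∞ F ∧ tsupport F ⊆ Ioo (-η) η ∧
      0 < ∫ t, F t ^ 2 / Real.cosh t ^ 2 ∧
      ∫ t, (deriv (deriv F) t - (((m0 + (k : ℕ) : ℕ) : ℝ) ^ 2 - l * (l + 1) / Real.cosh t ^ 2) * F t) ^ 2 *
        Real.cosh t ^ 2 ≤ θ ^ l * ∫ t, F t ^ 2 / Real.cosh t ^ 2 := by
    intro k
    have hk := k.2
    refine hL l hlL (m0 + k) ?_ (by omega)
    push_cast
    have : (0 : ℝ) ≤ (k : ℕ) := by positivity
    linarith
  choose F hF1 hF2 hF3 hF4 using hF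
  set c : Fin (l + 1 - m0) → ℝ := fun k => (√(π * ∫ t, F k t ^ 2 / Real.cosh t ^ 2))⁻¹ with hc
  have hI : ∀ k, 0 < π * ∫ t, F k t ^ 2 / Real.cosh t ^ 2 := fun k => mul_pos Real.pi_pos (hF3 k)
  have hc2 : ∀ k, c k ^ 2 * (π * ∫ t, F k t ^ 2 / Real.cosh t ^ 2) = 1 := by
    intro k
    simp only [hc]
    rw [inv_pow, Real.sq_sqrt (hI k).le]
    exact inv_mul_cancel₀ (hI k).ne'
  set G : Fin (l + 1 - m0) → ℝ → ℝ := fun k t => c k * F k t with hG
  have hG1 : ∀ k, ContDiff ℝ ∞ (G k) := fun k => contDiff_const.mul (hF1 k)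
  have hG2 : ∀ k, tsupport (G k) ⊆ Ioo (-η) η := by
    intro k
    have h1 : Function.support (G k) ⊆ Function.support (F k) := by
      intro t ht h0
      apply ht
      simp only [hG]
      rw [h0, mul_zero]
    exact (closure_mono h1).trans (hF2 k)
  have hm : ∀ k : Fin (l + 1 - m0), 1 ≤ m0 + (k : ℕ) := fun k => by omega
  have hGG : ∀ k, ∫ t, G k t * G k t / Real.cosh t ^ 2 = c k ^ 2 * ∫ t, F k t ^ 2 / Real.cosh t ^ 2 := by
    intro k
    rw [← integral_const_mul]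
    congr 1
    funext t
    simp only [hG]
    ring
  refine ⟨l + 1 - m0, fun k => vf (G k) (m0 + k), ?_, by omega, ?_, ?_, ?_⟩
  · have : ((l + 1 - m0 : ℕ) : ℝ) = l + 1 - m0 := by
      rw [Nat.cast_sub (by omega)]
      push_cast
      ring
    rw [this]
    linarith
  · intro k
    obtain ⟨a1, a2, -⟩ := p1 (G k) (m0 + k) (hm k) (hG1 k) (hG2 k)
    exact ⟨a1, a2⟩
  · intro k k'
    rw [p2 (G k) (G k') (m0 + k) (m0 + k') (hm k) (hm k') (hG1 k).continuous (hG1 k').continuous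
      (hG2 k) (hG2 k')]
    by_cases h : k = k'
    · subst h
      rw [if_pos rfl, if_pos rfl, hGG k, ← mul_assoc, mul_comm π, mul_assoc]
      exact hc2 k
    · rw [if_neg h, if_neg]
      intro h'
      exact h (Fin.ext (by omega))
  · intro k
    obtain ⟨-, -, a3⟩ := p1 (G k) (m0 + k) (hm k) (hG1 k) (hG2 k)
    have h1 := a3 ((l : ℝ) * (l + 1))
    rw [h1]
    have hd : ∀ t, deriv (deriv (G k)) t = c k * deriv (deriv (F k)) t := by
      have e1 : deriv (G k) = fun t => c k * deriv (F k) t := by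
        funext t
        exact deriv_const_mul _ ((hF1 k).differentiable (by simp)).differentiableAt
      intro t
      rw [e1]
      refine deriv_const_mul _ ?_
      have : ContDiff ℝ 1 (deriv (F k)) := by
        have h2 : ContDiff ℝ (1 + 1) (F k) := by
          have h3 := contDiff_infty.1 (hF1 k) 2
          have e : ((2 : ℕ) : WithTop ℕ∞) = 1 + 1 := by norm_num
          rwa [e] at h3
        exact (contDiff_succ_iff_deriv.1 h2).2.2
      exact (this.differentiable (by simp)).differentiableAt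
    have h2 : ∫ t, (deriv (deriv (G k)) t - (((m0 + (k : ℕ) : ℕ) : ℝ) ^ 2 -
          (l : ℝ) * (l + 1) / Real.cosh t ^ 2) * G k t) ^ 2 * Real.cosh t ^ 2 =
        c k ^ 2 * ∫ t, (deriv (deriv (F k)) t - (((m0 + (k : ℕ) : ℕ) : ℝ) ^ 2 -
          l * (l + 1) / Real.cosh t ^ 2) * F k t) ^ 2 * Real.cosh t ^ 2 := by
      rw [← integral_const_mul]
      congr 1
      funext t
      rw [hd]
      simp only [hG]
      ring
    rw [h2]
    have h3 := hF4 k
    have h4 : 0 ≤ π * c k ^ 2 := by positivity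
    calc π * (c k ^ 2 * ∫ t, (deriv (deriv (F k)) t - (((m0 + (k : ℕ) : ℕ) : ℝ) ^ 2 -
          l * (l + 1) / Real.cosh t ^ 2) * F k t) ^ 2 * Real.cosh t ^ 2)
        = π * c k ^ 2 * ∫ t, (deriv (deriv (F k)) t - (((m0 + (k : ℕ) : ℕ) : ℝ) ^ 2 -
          l * (l + 1) / Real.cosh t ^ 2) * F k t) ^ 2 * Real.cosh t ^ 2 := by ring
      _ ≤ π * c k ^ 2 * (θ ^ l * ∫ t, F k t ^ 2 / Real.cosh t ^ 2) := by gcongr
      _ = θ ^ l * (c k ^ 2 * (π * ∫ t, F k t ^ 2 / Real.cosh t ^ 2)) := by ring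
      _ = θ ^ l := by rw [hc2 k, mul_one]

end Pool.Agent.L7h46.SB
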